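import Mathlib.Analysis.Complex.Polynomial.Basic
import Mathlib.Analysis.SpecialFunctions.Trigonometric.Arctan
import Mathlib.Topology.Algebra.Polynomial
import Mathlib.Tactic

/-!
# The argument principle on the imaginary axis, for polynomials
-/

set_option autoImplicit false

namespace Pool.Agent.Q225.TB

open Polynomial Filter Topology

/-- sign of a half plane -/
noncomputable def eps (z : ℂ) : ℝ := open Classical in if 0 < z.re then -1 else 1

/-- the continuous argument of `I t - z`, up to a sign -/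
noncomputable def th (z : ℂ) (t : ℝ) : ℝ := eps z * Real.arctan ((t - z.im) / |z.re|)

theorem polar (a b : ℝ) (ha : 0 < a) :
    ((a : ℂ) + Complex.I * b) = ((a * √(1 + (b / a) ^ 2) : ℝ) : ℂ) *
      Complex.exp (Complex.I * (Real.arctan (b / a) : ℝ)) := by
  rw [mul_comm Complex.I ((Real.arctan (b / a) : ℝ) : ℂ), Complex.exp_mul_I,
    ← Complex.ofReal_cos, ← Complex.ofReal_sin, Real.cos_arctan, Real.sin_arctan]
  have hs : (√(1 + (b / a) ^ 2)) ≠ 0 := by positivity
  apply Complex.ext
  · simp only [Complex.add_re, Complex.ofReal_re, Complex.mul_re, Complex.I_re, Complex.I_im,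
      Complex.ofReal_im]
    simp only [zero_mul, one_mul, mul_zero, sub_zero, zero_sub, add_zero, neg_zero, mul_one,
      Complex.add_im, Complex.mul_im, Complex.ofReal_im, Complex.ofReal_re, Complex.I_re,
      Complex.I_im]
    field_simp
  · simp only [Complex.add_im, Complex.ofReal_re, Complex.mul_im, Complex.I_re, Complex.I_im,
      Complex.ofReal_im]
    simp only [zero_mul, one_mul, mul_zero, sub_zero, zero_sub, add_zero, zero_add, neg_zero,
      mul_one, Complex.add_re, Complex.mul_re, Complex.ofReal_im, Complex.ofReal_re, Complex.I_re,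
      Complex.I_im]
    field_simp

theorem fac (z : ℂ) (hz : z.re ≠ 0) (t : ℝ) : ∃ r : ℝ, 0 < r ∧
    Complex.I * t - z = ((eps z * r : ℝ) : ℂ) * Complex.exp (Complex.I * (th z t : ℝ)) := by
  have ha : 0 < |z.re| := abs_pos.2 hz
  refine ⟨|z.re| * √(1 + ((t - z.im) / |z.re|) ^ 2), by positivity, ?_⟩
  unfold th eps
  split_ifs with h
  · have h1 := polar |z.re| (-(t - z.im)) ha
    rw [neg_div, Real.arctan_neg, neg_sq] at h1
    rw [abs_of_pos h] at h1 ⊢
    rw [show ((-1 * (z.re * √(1 + ((t - z.im) / z.re) ^ 2)) : ℝ) : ℂ) =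
      -((z.re * √(1 + ((t - z.im) / z.re) ^ 2) : ℝ) : ℂ) by push_cast; ring, neg_mul,
      neg_one_mul, ← h1]
    apply Complex.ext <;> simp
  · have h' : z.re < 0 := lt_of_le_of_ne (not_lt.1 h) hz
    have h1 := polar |z.re| (t - z.im) ha
    rw [one_mul, one_mul, ← h1, abs_of_neg h']
    apply Complex.ext <;> simp

/-- total argument -/
noncomputable def Th (S : Multiset ℂ) (t : ℝ) : ℝ := (S.map (fun z => th z t)).sum

theorem prodFac (S : Multiset ℂ) (hS : ∀ z ∈ S, z.re ≠ 0) (t : ℝ) : ∃ r : ℝ, r ≠ 0 ∧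
    (S.map (fun z => Complex.I * t - z)).prod =
      (r : ℂ) * Complex.exp (Complex.I * (Th S t : ℝ)) := by
  induction S using Multiset.induction_on with
  | empty => exact ⟨1, one_ne_zero, by simp [Th]⟩
  | cons z S ih =>
    obtain ⟨r, hr, h⟩ := ih fun w hw => hS w (Multiset.mem_cons_of_mem hw)
    obtain ⟨r', hr', h'⟩ := fac z (hS z (Multiset.mem_cons_self z S)) t
    have he : eps z ≠ 0 := by unfold eps; split_ifs <;> norm_num
    refine ⟨eps z * r' * r, by positivity, ?_⟩
    rw [Multiset.map_cons, Multiset.prod_cons, h, h', Th, Th, Multiset.map_cons,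
      Multiset.sum_cons, Complex.ofReal_add, mul_add, Complex.exp_add]
    push_cast
    ring

theorem sin_range {f : ℝ → ℝ} (hf : Continuous f) (h : ∀ t > 0, Real.sin (f t) ≠ 0) {a b : ℝ}
    (ha : 0 < a) (hb : 0 < b) : f b - f a ≤ Real.pi := by
  by_contra hlt
  push_neg at hlt
  have hpi := Real.pi_pos
  set k : ℤ := ⌊f a / Real.pi⌋ + 1 with hk
  have h1 : f a < k * Real.pi := by
    have := Int.lt_floor_add_one (f a / Real.pi)
    rw [div_lt_iff₀ hpi] at this
    rw [hk]; push_cast; exact this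
  have h2 : k * Real.pi ≤ f a + Real.pi := by
    have := Int.floor_le (f a / Real.pi)
    rw [le_div_iff₀ hpi] at this
    rw [hk]; push_cast; linarith
  have h3 : (k * Real.pi) ∈ Set.uIcc (f a) (f b) :=
    Set.mem_uIcc_of_le h1.le (by linarith)
  obtain ⟨c, hc, hc2⟩ := intermediate_value_uIcc (hf.continuousOn) h3
  have hc0 : 0 < c := by
    rcases Set.mem_uIcc.1 hc with hc | hc
    · exact ha.trans_le hc.1
    · exact hb.trans_le hc.1
  exact h c hc0 (by rw [hc2]; exact Real.sin_int_mul_pi k)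

theorem sin_range_zero {f : ℝ → ℝ} (hf : Continuous f) (h : ∀ t > 0, Real.sin (f t) ≠ 0) {b : ℝ}
    (hb : 0 < b) : f 0 - f b ≤ Real.pi ∧ f b - f 0 ≤ Real.pi := by
  have ht : Tendsto f (𝓝[>] 0) (𝓝 (f 0)) := (hf.tendsto 0).mono_left nhdsWithin_le_nhds
  have hpos : ∀ᶠ t in 𝓝[>] (0 : ℝ), 0 < t := self_mem_nhdsWithin
  constructor
  · exact le_of_tendsto (ht.sub_const (f b)) (hpos.mono fun t ht => sin_range hf h hb ht)
  · exact le_of_tendsto (tendsto_const_nhds.sub ht) (hpos.mono fun t ht => sin_range hf h ht hb)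

theorem sin_range_neg {f : ℝ → ℝ} (hf : Continuous f) (h : ∀ t ≠ 0, Real.sin (f t) ≠ 0) {b : ℝ}
    (hb : 0 < b) : f (-b) - f b ≤ 2 * Real.pi := by
  have h1 := (sin_range_zero hf (fun t ht => h t ht.ne') hb).1
  have h2 := (sin_range_zero (f := fun t => f (-t)) (hf.comp continuous_neg)
    (fun t ht => h (-t) (neg_ne_zero.2 ht.ne')) hb).2
  simp only [neg_zero] at h2
  linarith

theorem th_cont (z : ℂ) : Continuous (th z) := by
  unfold th
  exact continuous_const.mul
    (Real.continuous_arctan.comp ((continuous_id.sub continuous_const).div_const _))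

theorem th_tendsto (z : ℂ) (hz : z.re ≠ 0) :
    Tendsto (th z) atTop (𝓝 (eps z * (Real.pi / 2))) ∧
    Tendsto (fun t => th z (-t)) atTop (𝓝 (eps z * (-(Real.pi / 2)))) := by
  have ha : 0 < |z.re| := abs_pos.2 hz
  have h1 : Tendsto (fun t : ℝ => (t - z.im) / |z.re|) atTop atTop :=
    (tendsto_atTop_add_const_right _ (-z.im) tendsto_id).atTop_div_const ha
  have h2 : Tendsto (fun t : ℝ => (-t - z.im) / |z.re|) atTop atBot :=
    (tendsto_atBot_add_const_right _ (-z.im) tendsto_neg_atTop_atBot).atBot_div_const ha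
  constructor
  · exact ((Real.tendsto_arctan_atTop.mono_right nhdsWithin_le_nhds).comp h1).const_mul _
  · exact ((Real.tendsto_arctan_atBot.mono_right nhdsWithin_le_nhds).comp h2).const_mul _

theorem eps_sum (S : Multiset ℂ) : (S.map eps).sum =
    (Multiset.card S : ℝ) - 2 * (Multiset.card (S.filter (fun z => 0 < z.re)) : ℝ) := by
  classical
  induction S using Multiset.induction_on with
  | empty => simp
  | cons z S ih =>
    rw [Multiset.map_cons, Multiset.sum_cons, ih, Multiset.filter_cons]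
    unfold eps
    split_ifs with h
    · simp only [Multiset.card_cons, Multiset.card_add, Multiset.card_singleton]
      push_cast; ring
    · simp only [Multiset.card_cons, Multiset.card_add, Multiset.card_zero]
      push_cast; ring

/-- **Counting zeros in the right half plane.** -/
theorem count_le (P : ℝ[X]) (m : ℝ) (hm : 0 < m) (N : ℕ) (h0 : P.eval 0 ≠ 0)
    (h : ∀ t : ℝ, t ≠ 0 →
      (aeval (Complex.I * t) P * ((m : ℂ) - Complex.I * t) ^ N).im ≠ 0) :
    2 * Multiset.card ((P.map (algebraMap ℝ ℂ)).roots.filter (fun z => 0 < z.re)) + N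
      ≤ P.natDegree + 2 := by
  classical
  set Q := P.map (algebraMap ℝ ℂ) with hQ
  set S := Q.roots with hSdef
  have hP0 : P ≠ 0 := by rintro rfl; simp at h0
  have hQ0 : Q ≠ 0 := (Polynomial.map_ne_zero_iff (algebraMap ℝ ℂ).injective).2 hP0
  have hsp : Q.Splits := IsAlgClosed.splits Q
  have hcard : Multiset.card S = P.natDegree := by
    rw [hSdef, ← hsp.natDegree_eq_card_roots, hQ, natDegree_map]
  have hev : ∀ z : ℂ, aeval z P = Q.leadingCoeff * (S.map (fun w => z - w)).prod := by
    intro z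
    rw [← hsp.eval_eq_prod_roots, hQ, eval_map_algebraMap]
  have hS : ∀ z ∈ S, z.re ≠ 0 := by
    intro z hz hre
    have hr : aeval z P = 0 := by
      have := (mem_roots hQ0).1 hz
      rw [IsRoot, hQ, eval_map_algebraMap] at this
      exact this
    have hzI : z = Complex.I * (z.im : ℂ) := by
      apply Complex.ext <;> simp [hre]
    by_cases him : z.im = 0
    · have : z = 0 := by rw [hzI, him]; simp
      rw [this] at hr
      have h2 : aeval (algebraMap ℝ ℂ 0) P = algebraMap ℝ ℂ (P.eval 0) :=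
        aeval_algebraMap_apply_eq_algebraMap_eval 0 P
      rw [map_zero, hr] at h2
      exact h0 ((algebraMap ℝ ℂ).injective (by rw [map_zero]; exact h2.symm))
    · refine h z.im him ?_
      rw [← hzI, hr]; simp
  -- total argument
  set F : ℝ → ℝ := fun t => Th S t - N * Real.arctan (t / m) with hF
  have hlead : ∃ c : ℝ, c ≠ 0 ∧ Q.leadingCoeff = (c : ℂ) := by
    refine ⟨P.leadingCoeff, leadingCoeff_ne_zero.2 hP0, ?_⟩
    rw [hQ, leadingCoeff_map]; rfl
  obtain ⟨c, hc, hcQ⟩ := hlead
  have hpol : ∀ t : ℝ, ∃ r : ℝ, r ≠ 0 ∧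
      aeval (Complex.I * t) P * ((m : ℂ) - Complex.I * t) ^ N =
        (r : ℂ) * Complex.exp (Complex.I * (F t : ℝ)) := by
    intro t
    obtain ⟨r, hr, h1⟩ := prodFac S hS t
    have h2 := polar m (-t) hm
    rw [neg_div, Real.arctan_neg, neg_sq] at h2
    have h3 : (m : ℂ) - Complex.I * t = (m : ℂ) + Complex.I * ((-t : ℝ) : ℂ) := by
      push_cast; ring
    refine ⟨c * r * (m * √(1 + (t / m) ^ 2)) ^ N, by positivity, ?_⟩
    rw [hev, h1, hcQ, h3, h2, mul_pow, ← Complex.exp_nat_mul, hF]
    have h4 : Complex.exp (Complex.I * ((Th S t - N * Real.arctan (t / m) : ℝ) : ℂ)) =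
        Complex.exp (Complex.I * (Th S t : ℝ)) *
          Complex.exp ((N : ℂ) * (Complex.I * ((-Real.arctan (t / m) : ℝ) : ℂ))) := by
      rw [← Complex.exp_add]
      congr 1
      push_cast; ring
    rw [h4]
    push_cast
    ring
  have hsin : ∀ t ≠ 0, Real.sin (F t) ≠ 0 := by
    intro t ht hs
    obtain ⟨r, hr, h1⟩ := hpol t
    refine h t ht ?_
    rw [h1, mul_comm Complex.I, Complex.exp_mul_I, ← Complex.ofReal_cos, ← Complex.ofReal_sin, hs]
    simp
  have hcont : Continuous F := by
    rw [hF]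
    refine Continuous.sub ?_ ?_
    · exact continuous_multiset_sum S (fun z _ => th_cont z)
    · exact continuous_const.mul (Real.continuous_arctan.comp (continuous_id.div_const _))
  have hmain : ∀ b > 0, F (-b) - F b ≤ 2 * Real.pi := fun b hb => sin_range_neg hcont hsin hb
  have hl1 : Tendsto (fun t => Th S t) atTop (𝓝 ((S.map (fun z => eps z * (Real.pi / 2))).sum)) :=
    tendsto_multiset_sum S (fun z hz => (th_tendsto z (hS z hz)).1)
  have hl2 : Tendsto (fun t => Th S (-t)) atTop
      (𝓝 ((S.map (fun z => eps z * (-(Real.pi / 2)))).sum)) :=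
    tendsto_multiset_sum S (fun z hz => (th_tendsto z (hS z hz)).2)
  have hl3 : Tendsto (fun t : ℝ => Real.arctan (t / m)) atTop (𝓝 (Real.pi / 2)) :=
    (Real.tendsto_arctan_atTop.mono_right nhdsWithin_le_nhds).comp
      (tendsto_id.atTop_div_const hm)
  have hl4 : Tendsto (fun t : ℝ => Real.arctan (-t / m)) atTop (𝓝 (-(Real.pi / 2))) :=
    (Real.tendsto_arctan_atBot.mono_right nhdsWithin_le_nhds).comp
      (tendsto_neg_atTop_atBot.atBot_div_const hm)
  have hlim : Tendsto (fun t => F (-t) - F t) atTop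
      (𝓝 (((S.map (fun z => eps z * (-(Real.pi / 2)))).sum - N * (-(Real.pi / 2)))
        - ((S.map (fun z => eps z * (Real.pi / 2))).sum - N * (Real.pi / 2)))) :=
    (hl2.sub (hl4.const_mul _)).sub (hl1.sub (hl3.const_mul _))
  have hle := le_of_tendsto hlim ((eventually_gt_atTop 0).mono hmain)
  rw [Multiset.sum_map_mul_right, Multiset.sum_map_mul_right, eps_sum, hcard] at hle
  have hpi := Real.pi_pos
  have h5 : (2 * (Multiset.card (S.filter (fun z => 0 < z.re)) : ℝ) + N) * Real.pi ≤
      ((P.natDegree : ℝ) + 2) * Real.pi := by linarith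
  have h6 := le_of_mul_le_mul_right h5 hpi
  exact_mod_cast h6

end Pool.Agent.Q225.TB
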