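import Pool.Agent.Q225.TB.Imag
import Pool.Agent.Q225.TB.Arg
import Mathlib.Analysis.Polynomial.Basic
import Mathlib.Tactic.ComputeDegree

/-!
# Positive roots of the auxiliary polynomials
-/

set_option autoImplicit false
set_option linter.unusedSimpArgs false

namespace Pool.Agent.Q225.TB

open Polynomial Finset Filter Topology

variable {m : ℝ}

/-! ### degree and leading coefficient -/

theorem aa_eq (m : ℝ) : C (1 + m) * X * aa m = C (1 + m) * X ^ 4 + C ((1 + m) * m) * X ^ 3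
    + C ((1 + m) * m) * X ^ 2 + C ((1 + m) * m ^ 2) * X := by
  simp only [aa, map_mul, map_add, map_pow]; ring

theorem br_eq (m : ℝ) (k : ℕ) : C (1 + m + 2 * ((k : ℝ) + 1)) * aa m
        - C (1 + m) * X * (C (2 * (2 * (k : ℝ) + 1)) * X * (C m + X)
          + C ((k : ℝ) + 2) * (C m + X ^ 2)) =
    C ((1 + m + 2 * ((k : ℝ) + 1)) - (1 + m) * (2 * (2 * (k : ℝ) + 1)) - (1 + m) * ((k : ℝ) + 2))
      * X ^ 3
    + C ((1 + m + 2 * ((k : ℝ) + 1)) * m - (1 + m) * (2 * (2 * (k : ℝ) + 1)) * m) * X ^ 2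
    + C ((1 + m + 2 * ((k : ℝ) + 1)) * m - (1 + m) * ((k : ℝ) + 2) * m) * X
    + C ((1 + m + 2 * ((k : ℝ) + 1)) * m ^ 2) := by
  simp only [aa, map_mul, map_add, map_sub, map_pow]; ring

theorem p_deg (m : ℝ) (k : ℕ) : (p m k).natDegree ≤ 3 * k := by
  induction k with
  | zero => simp [p]
  | succ k ih =>
    rw [p, aa_eq, br_eq]
    have hd : (derivative (p m k)).natDegree ≤ 3 * k - 1 :=
      (natDegree_derivative_le _).trans (by omega)
    refine natDegree_add_le_of_degree_le ?_ ?_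
    · rcases Nat.eq_zero_or_pos k with rfl | hk
      · rw [derivative_of_natDegree_zero (by omega), mul_zero]; simp
      · refine natDegree_mul_le.trans ?_
        have : (C (1 + m) * X ^ 4 + C ((1 + m) * m) * X ^ 3
          + C ((1 + m) * m) * X ^ 2 + C ((1 + m) * m ^ 2) * X : ℝ[X]).natDegree ≤ 4 := by
          compute_degree
        omega
    · refine natDegree_mul_le.trans ?_
      have : (C ((1 + m + 2 * ((k : ℝ) + 1)) - (1 + m) * (2 * (2 * (k : ℝ) + 1))
          - (1 + m) * ((k : ℝ) + 2)) * X ^ 3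
        + C ((1 + m + 2 * ((k : ℝ) + 1)) * m - (1 + m) * (2 * (2 * (k : ℝ) + 1)) * m) * X ^ 2
        + C ((1 + m + 2 * ((k : ℝ) + 1)) * m - (1 + m) * ((k : ℝ) + 2) * m) * X
        + C ((1 + m + 2 * ((k : ℝ) + 1)) * m ^ 2) : ℝ[X]).natDegree ≤ 3 := by
        compute_degree
      omega

theorem p_coeff (m : ℝ) (k : ℕ) :
    (p m (k + 1)).coeff (3 * (k + 1)) = -(1 + m * (2 * k + 3)) * (p m k).coeff (3 * k) := by
  rw [p, aa_eq, br_eq, coeff_add]
  have hd : (derivative (p m k)).natDegree ≤ 3 * k - 1 :=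
    (natDegree_derivative_le _).trans (by have := p_deg m k; omega)
  have h2 : (p m k * (C ((1 + m + 2 * ((k : ℝ) + 1)) - (1 + m) * (2 * (2 * (k : ℝ) + 1))
          - (1 + m) * ((k : ℝ) + 2)) * X ^ 3
        + C ((1 + m + 2 * ((k : ℝ) + 1)) * m - (1 + m) * (2 * (2 * (k : ℝ) + 1)) * m) * X ^ 2
        + C ((1 + m + 2 * ((k : ℝ) + 1)) * m - (1 + m) * ((k : ℝ) + 2) * m) * X
        + C ((1 + m + 2 * ((k : ℝ) + 1)) * m ^ 2))).coeff (3 * (k + 1)) =
      (p m k).coeff (3 * k) * ((1 + m + 2 * ((k : ℝ) + 1)) - (1 + m) * (2 * (2 * (k : ℝ) + 1))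
          - (1 + m) * ((k : ℝ) + 2)) := by
    rw [show 3 * (k + 1) = 3 * k + 3 by ring, coeff_mul_add_eq_of_natDegree_le (p_deg m k)
      (by compute_degree)]
    congr 1
    simp only [coeff_add, coeff_C_mul, coeff_X_pow, coeff_X, coeff_C]
    norm_num
  rw [h2]
  rcases Nat.eq_zero_or_pos k with rfl | hk
  · rw [derivative_of_natDegree_zero (by have := p_deg m 0; omega), mul_zero, coeff_zero]
    simp only [Nat.cast_zero, mul_zero]
    ring
  · have h1 : ((C (1 + m) * X ^ 4 + C ((1 + m) * m) * X ^ 3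
          + C ((1 + m) * m) * X ^ 2 + C ((1 + m) * m ^ 2) * X) * derivative (p m k)).coeff
          (3 * (k + 1)) = (1 + m) * ((p m k).coeff (3 * k) * (3 * k)) := by
      rw [show 3 * (k + 1) = 4 + (3 * k - 1) by omega, coeff_mul_add_eq_of_natDegree_le
        (by compute_degree) hd]
      congr 1
      · simp only [coeff_add, coeff_C_mul, coeff_X_pow, coeff_X, coeff_C]
        norm_num
      · rw [coeff_derivative]
        have : 3 * k - 1 + 1 = 3 * k := by omega
        rw [this]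
        congr 1
        have h3 : ((3 * k - 1 : ℕ) : ℝ) + 1 = ((3 * k - 1 + 1 : ℕ) : ℝ) := by push_cast; ring
        rw [h3, this]; push_cast; ring
    rw [h1]; ring

theorem p_coeff_sign (hm : 0 < m) (k : ℕ) : 0 < (-1) ^ k * (p m k).coeff (3 * k) := by
  induction k with
  | zero => simp [p]; linarith
  | succ k ih =>
    rw [p_coeff, pow_succ]
    have h1 : 0 < 1 + m * (2 * (k : ℝ) + 3) := by positivity
    have := mul_pos h1 ih
    linarith

theorem p_natDegree (hm : 0 < m) (k : ℕ) : (p m k).natDegree = 3 * k := by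
  refine le_antisymm (p_deg m k) (le_natDegree_of_ne_zero ?_)
  intro h
  have := p_coeff_sign hm k
  rw [h, mul_zero] at this
  exact lt_irrefl _ this

theorem p_ne_zero (hm : 0 < m) (k : ℕ) : p m k ≠ 0 := by
  intro h
  have := p_coeff_sign hm k
  rw [h, coeff_zero, mul_zero] at this
  exact lt_irrefl _ this

theorem p_zero_pos (hm : 0 < m) (k : ℕ) : 0 < (p m k).eval 0 := by
  induction k with
  | zero => simp [p]; linarith
  | succ k ih =>
    have : (p m (k + 1)).eval 0 = (p m k).eval 0 * ((1 + m + 2 * ((k : ℝ) + 1)) * (m * m)) := by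
      simp [p, aa]
    rw [this]
    positivity

/-- sign of a real polynomial at infinity -/
theorem sign_atTop {P : ℝ[X]} {c : ℝ} (hc : 0 < c * P.leadingCoeff) :
    ∀ᶠ x in atTop, 0 < c * P.eval x := by
  have hP : P ≠ 0 := by rintro rfl; simp at hc
  have hc0 : c ≠ 0 := by rintro rfl; simp at hc
  have h1 : (C c * P).leadingCoeff = c * P.leadingCoeff := by
    rw [leadingCoeff_mul, leadingCoeff_C]
  rcases Nat.eq_zero_or_pos P.natDegree with h0 | h0
  · refine Eventually.of_forall fun x => ?_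
    rw [eq_C_of_natDegree_eq_zero h0] at hc ⊢
    simpa using hc
  · have hd : 0 < (C c * P).degree := by
      rw [← natDegree_pos_iff_degree_pos, natDegree_C_mul hc0]; exact h0
    have := tendsto_atTop_of_leadingCoeff_nonneg (C c * P) hd (by rw [h1]; exact hc.le)
    refine (this.eventually_gt_atTop 0).mono fun x hx => ?_
    simpa using hx

theorem p_sign_atTop (hm : 0 < m) (k : ℕ) : ∀ᶠ x in atTop, 0 < (-1) ^ k * (p m k).eval x := by
  apply sign_atTop
  rw [leadingCoeff, p_natDegree hm k]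
  exact p_coeff_sign hm k

/-! ### upper bound -/

/-- positive roots -/
noncomputable def K (m : ℝ) (k : ℕ) : Finset ℝ := (p m k).roots.toFinset.filter (fun x => 0 < x)

theorem mem_K (hm : 0 < m) {k : ℕ} {x : ℝ} : x ∈ K m k ↔ 0 < x ∧ (p m k).eval x = 0 := by
  simp only [K, mem_filter, Multiset.mem_toFinset, mem_roots (p_ne_zero hm k), IsRoot]
  tauto

theorem card_K_le (hm : 0 < m) (k : ℕ) : (K m k).card ≤ k := by
  classical
  have h := count_le (p m k) m hm (k + 2) (p_zero_pos hm k).ne' (by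
    intro t ht
    rw [im_eq]
    have := l_pos hm k (sq_nonneg t)
    have h2 : t * (l m k).eval (t ^ 2) ≠ 0 := mul_ne_zero ht this.ne'
    intro h3
    apply h2
    linarith)
  rw [p_natDegree hm k] at h
  have h1 : (K m k).card ≤ Multiset.card
      (((p m k).map (algebraMap ℝ ℂ)).roots.filter (fun z => 0 < z.re)) := by
    have h2 : (K m k).image (fun x : ℝ => (x : ℂ)) ⊆
        (((p m k).map (algebraMap ℝ ℂ)).roots.filter (fun z => 0 < z.re)).toFinset := by
      intro z hz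
      obtain ⟨x, hx, rfl⟩ := Finset.mem_image.1 hz
      obtain ⟨hx0, hx1⟩ := (mem_K hm).1 hx
      rw [Multiset.mem_toFinset, Multiset.mem_filter]
      refine ⟨?_, by simpa using hx0⟩
      rw [mem_roots ((Polynomial.map_ne_zero_iff (algebraMap ℝ ℂ).injective).2 (p_ne_zero hm k)),
        IsRoot, eval_map_algebraMap]
      have := aeval_algebraMap_apply_eq_algebraMap_eval (A := ℂ) x (p m k)
      rw [hx1, map_zero] at this
      exact this
    calc (K m k).card = ((K m k).image (fun x : ℝ => (x : ℂ))).card :=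
          (Finset.card_image_of_injective _ Complex.ofReal_injective).symm
      _ ≤ _ := Finset.card_le_card h2
      _ ≤ _ := Multiset.toFinset_card_le _
  omega

/-! ### Rolle -/

/-- the function whose derivative is given by the next polynomial -/
noncomputable def phi (m : ℝ) (k : ℕ) (s : ℝ) : ℝ :=
  s ^ (2 * ((k : ℝ) + 1) / (1 + m) + 1) * (p m k).eval s
    / ((m + s ^ 2) ^ (2 * k + 1) * (m + s) ^ (k + 2))

theorem p_succ_eval (m : ℝ) (k : ℕ) (s : ℝ) : (p m (k + 1)).eval s =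
    (1 + m) * s * ((m + s ^ 2) * (m + s)) * (derivative (p m k)).eval s
      + (p m k).eval s * ((1 + m + 2 * ((k : ℝ) + 1)) * ((m + s ^ 2) * (m + s))
        - (1 + m) * s * (2 * (2 * (k : ℝ) + 1) * s * (m + s) + ((k : ℝ) + 2) * (m + s ^ 2))) := by
  simp [p, aa]

theorem phi_deriv (hm : 0 < m) (k : ℕ) {s : ℝ} (hs : 0 < s) :
    HasDerivAt (phi m k) (s ^ (2 * ((k : ℝ) + 1) / (1 + m)) * (p m (k + 1)).eval s
      / ((1 + m) * ((m + s ^ 2) ^ (2 * k + 2) * (m + s) ^ (k + 3)))) s := by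
  have h1 : HasDerivAt (fun s : ℝ => s ^ (2 * ((k : ℝ) + 1) / (1 + m) + 1))
      ((2 * ((k : ℝ) + 1) / (1 + m) + 1) * s ^ (2 * ((k : ℝ) + 1) / (1 + m) + 1 - 1)) s :=
    Real.hasDerivAt_rpow_const (Or.inl hs.ne')
  have h2 : HasDerivAt (fun s : ℝ => (p m k).eval s) ((derivative (p m k)).eval s) s :=
    (p m k).hasDerivAt s
  have h3 : HasDerivAt (fun s : ℝ => (m + s ^ 2) ^ (2 * k + 1))
      (((2 * k + 1 : ℕ) : ℝ) * (m + s ^ 2) ^ (2 * k) * (2 * s)) s := by
    have h33 := (hasDerivAt_pow (2 * k + 1) (m + s ^ 2)).comp s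
      ((hasDerivAt_pow 2 s).const_add m)
    refine HasDerivAt.congr_deriv (f := fun s : ℝ => (m + s ^ 2) ^ (2 * k + 1)) h33 ?_
    simp
  have h4 : HasDerivAt (fun s : ℝ => (m + s) ^ (k + 2))
      (((k + 2 : ℕ) : ℝ) * (m + s) ^ (k + 1) * 1) s := by
    have h44 := (hasDerivAt_pow (k + 2) (m + s)).comp s ((hasDerivAt_id s).const_add m)
    refine HasDerivAt.congr_deriv (f := fun s : ℝ => (m + s) ^ (k + 2)) h44 ?_
    simp
  have hd : ((m + s ^ 2) ^ (2 * k + 1) * (m + s) ^ (k + 2)) ≠ 0 := by positivity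
  have h5 := (h1.mul h2).div (h3.mul h4) hd
  refine HasDerivAt.congr_deriv (f := phi m k) h5 ?_
  rw [p_succ_eval]
  have e1 : s ^ (2 * ((k : ℝ) + 1) / (1 + m) + 1 - 1) = s ^ (2 * ((k : ℝ) + 1) / (1 + m)) := by
    congr 1; ring
  have e2 : s ^ (2 * ((k : ℝ) + 1) / (1 + m) + 1) = s ^ (2 * ((k : ℝ) + 1) / (1 + m)) * s := by
    rw [Real.rpow_add hs, Real.rpow_one]
  simp only [Pi.mul_apply, e1, e2]
  set E := s ^ (2 * ((k : ℝ) + 1) / (1 + m))
  set P := eval s (p m k)
  set P' := eval s (derivative (p m k))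
  have a1 : (m + s ^ 2) ≠ 0 := by positivity
  have a2 : (m + s) ≠ 0 := by positivity
  have a3 : (1 + m) ≠ 0 := by positivity
  push_cast
  field_simp
  ring

theorem phi_cont (hm : 0 < m) (k : ℕ) : ContinuousOn (phi m k) (Set.Ici 0) := by
  unfold phi
  refine ContinuousOn.div ?_ ?_ ?_
  · refine ContinuousOn.mul ?_ (p m k).continuous.continuousOn
    exact (Real.continuous_rpow_const (by positivity)).continuousOn
  · exact Continuous.continuousOn (by fun_prop)
  · intro s hs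
    have : (0 : ℝ) ≤ s := hs
    positivity

theorem phi_zero (hm : 0 < m) (k : ℕ) {a : ℝ} (ha : a = 0 ∨ (p m k).eval a = 0) :
    phi m k a = 0 := by
  rcases ha with rfl | ha
  · unfold phi
    rw [Real.zero_rpow (by positivity)]; simp
  · unfold phi; rw [ha]; simp

/-- mean value theorem for `phi` -/
theorem phi_mvt (hm : 0 < m) (k : ℕ) {a b : ℝ} (ha : 0 ≤ a) (hab : a < b) {c : ℝ}
    (h : 0 < c * (phi m k b - phi m k a)) : ∃ s ∈ Set.Ioo a b, 0 < c * (p m (k + 1)).eval s := by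
  obtain ⟨s, hs, h1⟩ := exists_hasDerivAt_eq_slope (phi m k) _ hab
    ((phi_cont hm k).mono (fun x hx => ha.trans hx.1))
    (fun s hs => phi_deriv hm k (ha.trans_lt hs.1))
  refine ⟨s, hs, ?_⟩
  have hs0 : 0 < s := ha.trans_lt hs.1
  have h2 : 0 < c * ((phi m k b - phi m k a) / (b - a)) := by
    rw [← mul_div_assoc]; exact div_pos h (sub_pos.2 hab)
  rw [← h1] at h2
  have h3 : 0 < s ^ (2 * ((k : ℝ) + 1) / (1 + m)) / ((1 + m) * ((m + s ^ 2) ^ (2 * k + 2)
    * (m + s) ^ (k + 3))) := by positivity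
  have h4 : c * (s ^ (2 * ((k : ℝ) + 1) / (1 + m)) * (p m (k + 1)).eval s
      / ((1 + m) * ((m + s ^ 2) ^ (2 * k + 2) * (m + s) ^ (k + 3)))) =
    s ^ (2 * ((k : ℝ) + 1) / (1 + m)) / ((1 + m) * ((m + s ^ 2) ^ (2 * k + 2)
    * (m + s) ^ (k + 3))) * (c * (p m (k + 1)).eval s) := by ring
  rw [h4] at h2
  exact pos_of_mul_pos_right h2 h3.le

theorem phi_sign (hm : 0 < m) (k : ℕ) {b : ℝ} (hb : 0 < b) {c : ℝ}
    (h : 0 < c * (p m k).eval b) : 0 < c * phi m k b := by
  unfold phi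
  have : c * (b ^ (2 * ((k : ℝ) + 1) / (1 + m) + 1) * (p m k).eval b
    / ((m + b ^ 2) ^ (2 * k + 1) * (m + b) ^ (k + 2))) =
    b ^ (2 * ((k : ℝ) + 1) / (1 + m) + 1) / ((m + b ^ 2) ^ (2 * k + 1) * (m + b) ^ (k + 2))
      * (c * (p m k).eval b) := by ring
  rw [this]
  positivity

/-- intermediate values for polynomials with a sign -/
theorem ivt {P : ℝ[X]} {a b : ℝ} (hab : a < b) {c : ℝ} (ha : 0 < c * P.eval a)
    (hb : c * P.eval b < 0) : ∃ s ∈ Set.Ioo a b, P.eval s = 0 := by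
  have hc : c ≠ 0 := by rintro rfl; simp at ha
  have h := intermediate_value_Ioo' (f := fun x => c * P.eval x) hab.le
    (Continuous.continuousOn (continuous_const.mul P.continuous))
  obtain ⟨s, hs, h1⟩ := h ⟨hb, ha⟩
  exact ⟨s, hs, (mul_eq_zero.1 h1).resolve_left hc⟩

theorem rolle (hm : 0 < m) (k : ℕ) {a b : ℝ} (ha : 0 ≤ a) (hab : a < b)
    (ha' : a = 0 ∨ (p m k).eval a = 0) (hb' : (p m k).eval b = 0) :
    ∃ s ∈ Set.Ioo a b, (p m (k + 1)).eval s = 0 := by
  have h1 := phi_zero hm k ha'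
  have h2 := phi_zero hm k (Or.inr hb')
  obtain ⟨s, hs, h3⟩ := exists_hasDerivAt_eq_zero hab
    ((phi_cont hm k).mono (fun x hx => ha.trans hx.1)) (h1.trans h2.symm)
    (fun s hs => phi_deriv hm k (ha.trans_lt hs.1))
  refine ⟨s, hs, ?_⟩
  have hs0 : 0 < s := ha.trans_lt hs.1
  have h4 : 0 < s ^ (2 * ((k : ℝ) + 1) / (1 + m)) := by positivity
  have h5 : 0 < ((1 + m) * ((m + s ^ 2) ^ (2 * k + 2) * (m + s) ^ (k + 3))) := by positivity
  rw [div_eq_zero_iff] at h3
  rcases h3 with h3 | h3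
  · exact (mul_eq_zero.1 h3).resolve_left h4.ne'
  · exact absurd h3 h5.ne'

theorem neg_one_pow_mul_succ (k : ℕ) (x : ℝ) : (-1) ^ (k + 1) * x = -((-1) ^ k * x) := by
  rw [pow_succ]; ring

/-- the augmented set of roots -/
theorem exists_R (hm : 0 < m) (k : ℕ) : ∃ R : ℝ, 0 < R ∧ (∀ x ∈ K m k, x < R) ∧
    (K m k).card + 2 ≤ (K m (k + 1) \ (insert 0 (insert R (K m k)))).card + 1 := by
  classical
  have ev : ∀ᶠ x in atTop, 0 < x ∧ (∀ y ∈ K m k, y < x) ∧ 0 < (-1) ^ k * (p m k).eval x ∧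
      0 < (-1) ^ (k + 1) * (p m (k + 1)).eval x := by
    have h1 : ∀ᶠ x in atTop, ∀ y ∈ K m k, y < x :=
      (Finset.eventually_all (K m k)).2 fun y _ => eventually_gt_atTop y
    filter_upwards [eventually_gt_atTop (0 : ℝ), h1, p_sign_atTop hm k, p_sign_atTop hm (k + 1)]
      with x a b c d using ⟨a, b, c, d⟩
  obtain ⟨R, hR0, hRK, hR1, hR2⟩ := ev.exists
  refine ⟨R, hR0, hRK, ?_⟩
  have hcard : (insert 0 (insert R (K m k))).card = (K m k).card + 2 := by
    rw [card_insert_of_notMem, card_insert_of_notMem]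
    · intro h; exact lt_irrefl _ (hRK R h)
    · rw [mem_insert, not_or]
      exact ⟨hR0.ne, fun h => lt_irrefl _ ((mem_K hm).1 h).1⟩
  rw [← hcard]
  apply card_le_sdiff_of_interleaved
  intro x hx y hy hxy _
  have hx0 : 0 ≤ x := by
    rcases mem_insert.1 hx with rfl | hx
    · exact le_rfl
    · rcases mem_insert.1 hx with rfl | hx
      · exact hR0.le
      · exact ((mem_K hm).1 hx).1.le
  have hyR : y ≤ R := by
    rcases mem_insert.1 hy with rfl | hy
    · exact hR0.le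
    · rcases mem_insert.1 hy with rfl | hy
      · exact le_rfl
      · exact (hRK y hy).le
  have hx' : x = 0 ∨ (p m k).eval x = 0 := by
    rcases mem_insert.1 hx with rfl | hx
    · exact Or.inl rfl
    · rcases mem_insert.1 hx with rfl | hx
      · exact absurd hxy (not_lt.2 hyR)
      · exact Or.inr ((mem_K hm).1 hx).2
  rcases mem_insert.1 hy with rfl | hy
  · exact absurd hxy (not_lt.2 hx0)
  rcases mem_insert.1 hy with rfl | hy
  · -- the last gap
    have h1 : 0 < (-1) ^ k * (phi m k y - phi m k x) := by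
      rw [phi_zero hm k hx', sub_zero]
      exact phi_sign hm k hR0 hR1
    obtain ⟨s, hs, h2⟩ := phi_mvt hm k hx0 hxy h1
    have h3 : (-1) ^ k * (p m (k + 1)).eval y < 0 := by
      rw [neg_one_pow_mul_succ] at hR2; linarith
    obtain ⟨z, hz, h4⟩ := ivt hs.2 h2 h3
    exact ⟨z, (mem_K hm).2 ⟨hx0.trans_lt (hs.1.trans hz.1), h4⟩, hs.1.trans hz.1, hz.2⟩
  · obtain ⟨z, hz, h4⟩ := rolle hm k hx0 hxy hx' ((mem_K hm).1 hy).2
    exact ⟨z, (mem_K hm).2 ⟨hx0.trans_lt hz.1, h4⟩, hz.1, hz.2⟩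

theorem card_K (hm : 0 < m) (k : ℕ) : (K m k).card = k := by
  refine le_antisymm (card_K_le hm k) ?_
  induction k with
  | zero => exact Nat.zero_le _
  | succ k ih =>
    obtain ⟨R, _, _, h⟩ := exists_R hm k
    have := Finset.card_le_card (Finset.sdiff_subset (s := K m (k + 1))
      (t := insert 0 (insert R (K m k))))
    omega

/-- no common positive roots -/
theorem no_common (hm : 0 < m) (k : ℕ) {r : ℝ} (hr : 0 < r) (h1 : (p m k).eval r = 0) :
    (p m (k + 1)).eval r ≠ 0 := by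
  classical
  intro h2
  obtain ⟨R, _, _, h⟩ := exists_R hm k
  rw [card_K hm k] at h
  have hmem : r ∈ K m (k + 1) := (mem_K hm).2 ⟨hr, h2⟩
  have hsub : K m (k + 1) \ (insert 0 (insert R (K m k))) ⊆ (K m (k + 1)).erase r := by
    intro z hz
    rw [Finset.mem_sdiff] at hz
    refine Finset.mem_erase.2 ⟨?_, hz.1⟩
    rintro rfl
    exact hz.2 (mem_insert_of_mem (mem_insert_of_mem ((mem_K hm).2 ⟨hr, h1⟩)))
  have h3 := Finset.card_le_card hsub
  rw [card_erase_of_mem hmem, card_K hm (k + 1)] at h3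
  omega

/-- near a root with a given sign of the derivative -/
theorem near_root {P : ℝ[X]} {r c : ℝ} (hr : P.eval r = 0)
    (hd : 0 < c * (derivative P).eval r) :
    (∀ a < r, ∃ s ∈ Set.Ioo a r, c * P.eval s < 0) ∧
    (∀ b > r, ∃ s ∈ Set.Ioo r b, 0 < c * P.eval s) := by
  have h1 : HasDerivAt (fun x => c * P.eval x) (c * (derivative P).eval r) r :=
    (P.hasDerivAt r).const_mul c
  have h2 := hasDerivAt_iff_tendsto_slope.1 h1
  have h3 := (tendsto_order.1 h2).1 0 hd
  constructor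
  · intro a ha
    have h4 : ∀ᶠ x in 𝓝[<] r, 0 < slope (fun x => c * P.eval x) r x :=
      h3.filter_mono (nhdsWithin_mono r (fun x hx => ne_of_lt hx))
    have h5 : ∀ᶠ x in 𝓝[<] r, x ∈ Set.Ioo a r := Ioo_mem_nhdsLT ha
    obtain ⟨s, hs1, hs2⟩ := (h4.and h5).exists
    refine ⟨s, hs2, ?_⟩
    rw [slope_def_field, hr, mul_zero, sub_zero] at hs1
    by_contra h6
    push_neg at h6
    exact absurd hs1 (not_lt.2 (div_nonpos_of_nonneg_of_nonpos h6 (sub_nonpos.2 hs2.2.le)))
  · intro b hb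
    have h4 : ∀ᶠ x in 𝓝[>] r, 0 < slope (fun x => c * P.eval x) r x :=
      h3.filter_mono (nhdsWithin_mono r (fun x hx => ne_of_gt hx))
    have h5 : ∀ᶠ x in 𝓝[>] r, x ∈ Set.Ioo r b := Ioo_mem_nhdsGT hb
    obtain ⟨s, hs1, hs2⟩ := (h4.and h5).exists
    refine ⟨s, hs2, ?_⟩
    rw [slope_def_field, hr, mul_zero, sub_zero] at hs1
    by_contra h6
    push_neg at h6
    exact absurd hs1 (not_lt.2 (div_nonpos_of_nonpos_of_nonneg h6 (sub_nonneg.2 hs2.1.le)))

/-- The Sturm property, one sign. -/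
theorem sturm_aux (hm : 0 < m) (k : ℕ) {r : ℝ} (hr : 0 < r) (h1 : (p m (k + 1)).eval r = 0)
    {c : ℝ} (hc1 : 0 < c * (p m k).eval r) (hc2 : 0 < c * (p m (k + 2)).eval r) : False := by
  classical
  have hd : 0 < c * (derivative (p m (k + 1))).eval r := by
    rw [p_succ_eval, h1, zero_mul, add_zero] at hc2
    have h2 : c * ((1 + m) * r * ((m + r ^ 2) * (m + r)) * eval r (derivative (p m (k + 1)))) =
      ((1 + m) * r * ((m + r ^ 2) * (m + r))) * (c * eval r (derivative (p m (k + 1)))) := by ring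
    rw [h2] at hc2
    exact pos_of_mul_pos_right hc2 (by positivity)
  obtain ⟨hn1, hn2⟩ := near_root h1 hd
  have hphi := phi_sign hm k hr hc1
  have hrK : r ∉ K m k := fun h => by
    rw [((mem_K hm).1 h).2, mul_zero] at hc1; exact lt_irrefl _ hc1
  have hcard : (insert 0 (insert r (K m k))).card = k + 2 := by
    rw [card_insert_of_notMem, card_insert_of_notMem hrK, card_K hm k]
    rw [mem_insert, not_or]
    exact ⟨hr.ne, fun h => lt_irrefl _ ((mem_K hm).1 h).1⟩
  have hint : (insert 0 (insert r (K m k))).card ≤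
      (K m (k + 1) \ (insert 0 (insert r (K m k)))).card + 1 := by
    apply card_le_sdiff_of_interleaved
    intro x hx y hy hxy _
    have hx0 : 0 ≤ x := by
      rcases mem_insert.1 hx with rfl | hx
      · exact le_rfl
      · rcases mem_insert.1 hx with rfl | hx
        · exact hr.le
        · exact ((mem_K hm).1 hx).1.le
    rcases mem_insert.1 hy with rfl | hy
    · exact absurd hxy (not_lt.2 hx0)
    rcases mem_insert.1 hy with rfl | hy
    · -- right end is `r`
      have hx' : x = 0 ∨ (p m k).eval x = 0 := by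
        rcases mem_insert.1 hx with rfl | hx
        · exact Or.inl rfl
        · rcases mem_insert.1 hx with rfl | hx
          · exact absurd hxy (lt_irrefl _)
          · exact Or.inr ((mem_K hm).1 hx).2
      obtain ⟨s, hs, h2⟩ := phi_mvt (c := c) hm k hx0 hxy (by
        rw [phi_zero hm k hx', sub_zero]; exact hphi)
      obtain ⟨s', hs', h3⟩ := hn1 s hs.2
      obtain ⟨z, hz, h4⟩ := ivt hs'.1 h2 h3
      exact ⟨z, (mem_K hm).2 ⟨hx0.trans_lt (hs.1.trans hz.1), h4⟩, hs.1.trans hz.1,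
        hz.2.trans hs'.2⟩
    · have hy' := ((mem_K hm).1 hy).2
      by_cases hxr : x = r
      · subst hxr
        obtain ⟨s, hs, h2⟩ := phi_mvt (c := -c) hm k hx0 hxy (by
          rw [phi_zero hm k (Or.inr hy')]; linarith)
        obtain ⟨s', hs', h3⟩ := hn2 s hs.1
        obtain ⟨z, hz, h4⟩ := ivt hs'.2 h3 (by linarith)
        exact ⟨z, (mem_K hm).2 ⟨hx0.trans_lt (hs'.1.trans hz.1), h4⟩, hs'.1.trans hz.1,
          hz.2.trans hs.2⟩
      · have hx' : x = 0 ∨ (p m k).eval x = 0 := by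
          rcases mem_insert.1 hx with rfl | hx
          · exact Or.inl rfl
          · rcases mem_insert.1 hx with rfl | hx
            · exact absurd rfl hxr
            · exact Or.inr ((mem_K hm).1 hx).2
        obtain ⟨z, hz, h4⟩ := rolle hm k hx0 hxy hx' hy'
        exact ⟨z, (mem_K hm).2 ⟨hx0.trans_lt hz.1, h4⟩, hz.1, hz.2⟩
  have hmem : r ∈ K m (k + 1) := (mem_K hm).2 ⟨hr, h1⟩
  have hsub : K m (k + 1) \ (insert 0 (insert r (K m k))) ⊆ (K m (k + 1)).erase r := by
    intro z hz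
    rw [Finset.mem_sdiff] at hz
    refine Finset.mem_erase.2 ⟨?_, hz.1⟩
    rintro rfl
    exact hz.2 (mem_insert_of_mem (mem_insert_self _ _))
  have h3 := Finset.card_le_card hsub
  rw [card_erase_of_mem hmem, card_K hm (k + 1)] at h3
  omega

/-- **The Sturm property.** -/
theorem sturm (hm : 0 < m) (k : ℕ) {r : ℝ} (hr : 0 < r) (h1 : (p m (k + 1)).eval r = 0) :
    (p m k).eval r * (p m (k + 2)).eval r < 0 := by
  have h2 := no_common hm (k + 1) hr h1
  have h3 : (p m k).eval r ≠ 0 := fun h => no_common hm k hr h h1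
  by_contra h
  push_neg at h
  have h4 : 0 < (p m k).eval r * (p m (k + 2)).eval r :=
    lt_of_le_of_ne h (mul_ne_zero h3 h2).symm
  refine sturm_aux hm k hr h1 (c := (p m k).eval r) ?_ h4
  exact mul_self_pos.2 h3

end Pool.Agent.Q225.TB
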