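import Pool.Agent.Q225.TB.Series2
import Pool.Agent.Q225.TB.Roots

/-!
# Sturm chains, and the conclusion
-/

set_option autoImplicit false
set_option linter.unusedSimpArgs false

namespace Pool.Agent.Q225.TB

open Polynomial Finset Filter Topology

theorem prod_sign (r : ℕ → ℝ) (n : ℕ) (x : ℝ) (i : ℕ) (hi : i ≤ n) (h1 : ∀ j < i, r j < x)
    (h2 : ∀ j, i ≤ j → j < n → x < r j) :
    0 < (-1) ^ (n - i) * ∏ j ∈ range n, (x - r j) := by
  have e1 : ∏ j ∈ range n, (x - r j) =
      (∏ j ∈ range i, (x - r j)) * ∏ j ∈ Ico i n, (x - r j) := by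
    rw [Finset.prod_range_mul_prod_Ico _ hi]
  have e2 : ((-1 : ℝ)) ^ (n - i) * ∏ j ∈ Ico i n, (x - r j) = ∏ j ∈ Ico i n, (r j - x) := by
    have : ((-1 : ℝ)) ^ (n - i) = ∏ j ∈ Ico i n, (-1 : ℝ) := by simp
    rw [this, ← Finset.prod_mul_distrib]
    exact Finset.prod_congr rfl fun j _ => by ring
  rw [e1, mul_left_comm, e2]
  refine mul_pos (Finset.prod_pos fun j hj => ?_) (Finset.prod_pos fun j hj => ?_)
  · exact sub_pos.2 (h1 j (Finset.mem_range.1 hj))
  · rw [Finset.mem_Ico] at hj
    exact sub_pos.2 (h2 j hj.1 hj.2)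

/-- roots of a polynomial with the full number of roots -/
theorem roots_of_full {P : ℝ[X]} {n : ℕ} (hP : P ≠ 0) (hdeg : P.natDegree = n) (r : ℕ → ℝ)
    (hr : ∀ i j, i < j → j < n → r i < r j) (h0 : ∀ i < n, P.eval (r i) = 0) :
    P.roots = (image r (range n)).val ∧ Set.InjOn r (range n : Set ℕ) := by
  classical
  have hinj : Set.InjOn r (range n : Set ℕ) := by
    intro i hi j hj hij
    rw [Finset.mem_coe, Finset.mem_range] at hi hj
    rcases lt_trichotomy i j with h | h | h
    · exact absurd hij (hr i j h hj).ne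
    · exact h
    · exact absurd hij (hr j i h hi).ne'
  refine ⟨?_, hinj⟩
  symm
  apply Multiset.eq_of_le_of_card_le
  · rw [Multiset.le_iff_subset (Finset.nodup _)]
    intro x hx
    rw [Finset.mem_val] at hx
    obtain ⟨i, hi, rfl⟩ := Finset.mem_image.1 hx
    rw [mem_roots hP]
    exact h0 i (Finset.mem_range.1 hi)
  · rw [Finset.card_val, Finset.card_image_of_injOn hinj, Finset.card_range]
    exact (card_roots' P).trans hdeg.le

theorem eval_of_full {P : ℝ[X]} {n : ℕ} (hP : P ≠ 0) (hdeg : P.natDegree = n) (r : ℕ → ℝ)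
    (hr : ∀ i j, i < j → j < n → r i < r j) (h0 : ∀ i < n, P.eval (r i) = 0) (x : ℝ) :
    P.eval x = P.leadingCoeff * ∏ j ∈ range n, (x - r j) := by
  classical
  obtain ⟨h1, h2⟩ := roots_of_full hP hdeg r hr h0
  have hs : P.Splits := by
    rw [splits_iff_card_roots, h1, Finset.card_val, Finset.card_image_of_injOn h2,
      Finset.card_range, hdeg]
  rw [hs.eval_eq_prod_roots, h1]
  congr 1
  have : (Multiset.map (fun y => x - y) (image r (range n)).val).prod =
      ∏ y ∈ image r (range n), (x - y) := rfl
  rw [this, Finset.prod_image h2]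

/-- **Sturm chains.** -/
theorem sturm_chain (b : ℕ → ℝ[X]) (hdeg : ∀ n, (b n).natDegree = n)
    (hlead : ∀ n, 0 < (-1) ^ n * (b n).leadingCoeff) (h0 : ∀ n, 0 < (b n).eval 0)
    (hst : ∀ n r, 0 < r → (b (n + 1)).eval r = 0 → (b n).eval r * (b (n + 2)).eval r < 0)
    (n : ℕ) : ∃ r : ℕ → ℝ, (∀ i < n, 0 < r i) ∧ (∀ i j, i < j → j < n → r i < r j) ∧
      (∀ i < n, (b n).eval (r i) = 0) ∧ (∀ i < n, 0 < (-1) ^ (i + 1) * (b (n + 1)).eval (r i)) := by
  have hne : ∀ n, b n ≠ 0 := fun n h => by
    have := h0 n; rw [h] at this; simp at this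
  induction n with
  | zero => exact ⟨fun _ => 0, by simp, by simp, by simp, by simp⟩
  | succ n ih =>
    obtain ⟨r, hr0, hr1, hr2, hr3⟩ := ih
    have ev : ∀ᶠ x in atTop, 0 < x ∧ (∀ i ∈ range n, r i < x) ∧
        0 < (-1) ^ (n + 1) * (b (n + 1)).eval x := by
      have h1 : ∀ᶠ x in atTop, ∀ i ∈ range n, r i < x :=
        (Finset.eventually_all (range n)).2 fun y _ => eventually_gt_atTop _
      filter_upwards [eventually_gt_atTop (0 : ℝ), h1, sign_atTop (hlead (n + 1))]
        with x a b c using ⟨a, b, c⟩
    obtain ⟨M, hM0, hM1, hM2⟩ := ev.exists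
    set t : ℕ → ℝ := fun i => if i = 0 then 0 else if i ≤ n then r (i - 1) else M with ht
    have t0 : t 0 = 0 := by simp [ht]
    have t1 : ∀ j < n, t (j + 1) = r j := by
      intro j hj
      simp only [ht]
      rw [if_neg (by omega), if_pos (by omega), Nat.add_sub_cancel]
    have t2 : t (n + 1) = M := by
      simp only [ht]
      rw [if_neg (by omega), if_neg (by omega)]
    have hstep : ∀ i ≤ n, t i < t (i + 1) := by
      intro i hi
      rcases Nat.eq_zero_or_pos i with rfl | hi0
      · rw [t0]
        rcases Nat.eq_zero_or_pos n with rfl | hn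
        · rw [t2]; exact hM0
        · rw [t1 0 hn]; exact hr0 0 hn
      · obtain ⟨j, rfl⟩ : ∃ j, i = j + 1 := ⟨i - 1, by omega⟩
        rw [t1 j (by omega)]
        rcases Nat.lt_or_ge (j + 1) n with h | h
        · rw [t1 (j + 1) h]; exact hr1 j (j + 1) (by omega) h
        · obtain rfl : n = j + 1 := by omega
          rw [t2]; exact hM1 j (Finset.mem_range.2 (by omega))
    have hmono : ∀ i j, i ≤ j → j ≤ n + 1 → t i ≤ t j := by
      intro i j hij
      induction j, hij using Nat.le_induction with
      | base => intro _; exact le_rfl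
      | succ j hij ih => intro hj; exact (ih (by omega)).trans (hstep j (by omega)).le
    have hsgn : ∀ i ≤ n + 1, 0 < (-1) ^ i * (b (n + 1)).eval (t i) := by
      intro i hi
      rcases Nat.eq_zero_or_pos i with rfl | hi0
      · rw [t0, pow_zero, one_mul]; exact h0 (n + 1)
      · obtain ⟨j, rfl⟩ : ∃ j, i = j + 1 := ⟨i - 1, by omega⟩
        rcases Nat.lt_or_ge j n with h | h
        · rw [t1 j h]; exact hr3 j h
        · obtain rfl : j = n := by omega
          rw [t2]; exact hM2
    have hex : ∀ i, ∃ s, i < n + 1 → (t i < s ∧ s < t (i + 1)) ∧ (b (n + 1)).eval s = 0 := by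
      intro i
      by_cases hi : i < n + 1
      · have h1 := hsgn i (by omega)
        have h2 := hsgn (i + 1) (by omega)
        rw [neg_one_pow_mul_succ] at h2
        obtain ⟨s, hs, h3⟩ := ivt (hstep i (by omega)) h1 (by linarith)
        exact ⟨s, fun _ => ⟨hs, h3⟩⟩
      · exact ⟨0, fun h => absurd h hi⟩
    choose s hs using hex
    refine ⟨s, ?_, ?_, fun i hi => (hs i hi).2, ?_⟩
    · intro i hi
      have := hmono 0 i (Nat.zero_le _) (by omega)
      rw [t0] at this
      exact this.trans_lt (hs i hi).1.1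
    · intro i j hij hj
      calc s i < t (i + 1) := (hs i (by omega)).1.2
        _ ≤ t j := hmono _ _ hij (by omega)
        _ < s j := (hs j hj).1.1
    · intro i hi
      have hsi0 : 0 < s i := by
        have := hmono 0 i (Nat.zero_le _) (by omega)
        rw [t0] at this
        exact this.trans_lt (hs i hi).1.1
      have h1 := hst n (s i) hsi0 (hs i hi).2
      have h2 : 0 < (-1) ^ i * (b n).eval (s i) := by
        rw [eval_of_full (hne n) (hdeg n) r hr1 hr2]
        have h3 := prod_sign r n (s i) i (by omega)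
          (fun j hj => by
            rw [← t1 j (by omega)]
            exact (hmono (j + 1) i (by omega) (by omega)).trans_lt (hs i hi).1.1)
          (fun j hj hjn => by
            rw [← t1 j hjn]
            exact (hs i hi).1.2.trans_le (hmono (i + 1) (j + 1) (by omega) (by omega)))
        have h4 := mul_pos (hlead n) h3
        have h5 : ((-1 : ℝ)) ^ n = (-1) ^ (n - i) * (-1) ^ i := by
          rw [← pow_add]; congr 1; omega
        have h6 : ((-1 : ℝ)) ^ (n - i) * (-1) ^ (n - i) = 1 := by
          rw [← pow_add, ← two_mul, pow_mul]; norm_num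
        calc (0 : ℝ) < _ := h4
          _ = ((-1 : ℝ) ^ (n - i) * (-1) ^ (n - i)) * ((-1) ^ i * ((b n).leadingCoeff
              * ∏ j ∈ range n, (s i - r j))) := by rw [h5]; ring
          _ = _ := by rw [h6, one_mul]
      have h3 : 0 < -((b n).eval (s i) * (b (n + 2)).eval (s i)) := by linarith
      have h4 : ((-1 : ℝ)) ^ i * (-1) ^ i = 1 := by
        rw [← pow_add, ← two_mul, pow_mul]; norm_num
      have h5 : 0 < ((-1) ^ i * (b n).eval (s i)) * ((-1) ^ (i + 1) * (b (n + 2)).eval (s i)) := by
        calc (0 : ℝ) < _ := h3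
          _ = ((-1 : ℝ) ^ i * (-1) ^ i) * -((b n).eval (s i) * (b (n + 2)).eval (s i)) := by
            rw [h4, one_mul]
          _ = _ := by rw [pow_succ]; ring
      exact pos_of_mul_pos_right h5 h2.le

/-! ### degrees of the type A and type B polynomials -/

theorem A_deg (n : ℕ) : (A n).natDegree ≤ n - 2 := by
  induction n using Nat.strong_induction_on with
  | _ n ih =>
    rcases n with _ | _ | n
    · simp [A_zero]
    · simp [A_one]
    · rw [A_succ]
      refine natDegree_add_le_of_degree_le ?_ ?_
      · exact (ih (n + 1) (by omega)).trans (by omega)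
      · rcases Nat.eq_zero_or_pos n with rfl | hn
        · simp
        refine natDegree_mul_le.trans ?_
        rw [natDegree_X]
        have : (∑ k ∈ range n, C (((n + 1).choose k : ℕ) : ℤ) * A (n + 1 - k) * A (k + 1)).natDegree
            ≤ n - 1 := by
          refine natDegree_sum_le_of_forall_le _ _ fun k hk => ?_
          have hk' := Finset.mem_range.1 hk
          refine natDegree_mul_le.trans ?_
          have h1 := natDegree_C_mul_le (((n + 1).choose k : ℕ) : ℤ) (A (n + 1 - k))
          have h2 := ih (n + 1 - k) (by omega)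
          have h3 := ih (k + 1) (by omega)
          omega
        omega

theorem B_deg (n : ℕ) : (B n).natDegree ≤ n - 1 := by
  induction n using Nat.strong_induction_on with
  | _ n ih =>
    rcases n with _ | n
    · simp [B_zero]
    · rw [B_succ]
      refine natDegree_add_le_of_degree_le (natDegree_add_le_of_degree_le ?_ ?_) ?_
      · exact (ih n (by omega)).trans (by omega)
      · rcases Nat.eq_zero_or_pos n with rfl | hn
        · simp
        refine natDegree_mul_le.trans ?_
        rw [natDegree_X]
        have : (∑ i ∈ range n, C ((n.choose i : ℕ) : ℤ) * B (n - i) * B i).natDegree ≤ n - 1 := by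
          refine natDegree_sum_le_of_forall_le _ _ fun k hk => ?_
          have hk' := Finset.mem_range.1 hk
          refine natDegree_mul_le.trans ?_
          have h1 := natDegree_C_mul_le ((n.choose k : ℕ) : ℤ) (B (n - k))
          have h2 := ih (n - k) (by omega)
          have h3 := ih k (by omega)
          omega
        omega
      · rcases Nat.lt_or_ge n 2 with hn | hn
        · have : n - 1 = 0 := by omega
          rw [this]; simp
        refine natDegree_mul_le.trans ?_
        rw [natDegree_X]
        have : (∑ j ∈ range (n - 1), C ((n.choose j * 2 ^ (n - j) : ℕ) : ℤ) * A (n - j)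
            * B (j + 1)).natDegree ≤ n - 1 := by
          refine natDegree_sum_le_of_forall_le _ _ fun k hk => ?_
          have hk' := Finset.mem_range.1 hk
          refine natDegree_mul_le.trans ?_
          have h1 := natDegree_C_mul_le ((n.choose k * 2 ^ (n - k) : ℕ) : ℤ) (A (n - k))
          have h2 := A_deg (n - k)
          have h3 := ih (k + 1) (by omega)
          omega
        omega

theorem B_coeff (n : ℕ) : (B (n + 1)).coeff n = 1 := by
  induction n with
  | zero => rw [B_succ]; simp [B_zero]
  | succ n ih =>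
    rw [B_succ, coeff_add, coeff_add, coeff_X_mul, coeff_X_mul]
    have h1 : (B (n + 1)).coeff (n + 1) = 0 :=
      coeff_eq_zero_of_natDegree_lt ((B_deg (n + 1)).trans_lt (by omega))
    have h2 : (∑ i ∈ range (n + 1), C (((n + 1).choose i : ℕ) : ℤ) * B (n + 1 - i) * B i).coeff n
        = 1 := by
      rw [finset_sum_coeff, Finset.sum_range_succ', Finset.sum_eq_zero, zero_add]
      · simp [B_zero, ih]
      · intro i hi
        have hi' := Finset.mem_range.1 hi
        apply coeff_eq_zero_of_natDegree_lt
        refine natDegree_mul_le.trans_lt ?_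
        have h1 := natDegree_C_mul_le (((n + 1).choose (i + 1) : ℕ) : ℤ) (B (n + 1 - (i + 1)))
        have h2 := B_deg (n + 1 - (i + 1))
        have h3 := B_deg (i + 1)
        omega
    have h3 : (∑ j ∈ range (n + 1 - 1), C (((n + 1).choose j * 2 ^ (n + 1 - j) : ℕ) : ℤ)
        * A (n + 1 - j) * B (j + 1)).coeff n = 0 := by
      rw [finset_sum_coeff, Finset.sum_eq_zero]
      intro j hj
      have hj' := Finset.mem_range.1 hj
      apply coeff_eq_zero_of_natDegree_lt
      refine natDegree_mul_le.trans_lt ?_
      have h1 := natDegree_C_mul_le (((n + 1).choose j * 2 ^ (n + 1 - j) : ℕ) : ℤ) (A (n + 1 - j))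
      have h2 := A_deg (n + 1 - j)
      have h3 := B_deg (j + 1)
      omega
    rw [h1, h2, h3]; norm_num

theorem B_natDegree (n : ℕ) : (B (n + 1)).natDegree = n :=
  le_antisymm (B_deg (n + 1)) (le_natDegree_of_ne_zero (by rw [B_coeff]; norm_num))

theorem B_eval_zero (n : ℕ) : (B n).eval 0 = 1 := by
  induction n with
  | zero => simp [B_zero]
  | succ n ih => rw [B_succ]; simp [ih]

/-- `B_{n+1}` over the reals -/
noncomputable def P (n : ℕ) : ℝ[X] := (B (n + 1)).map (Int.castRingHom ℝ)

theorem P_eval (n : ℕ) (x : ℝ) : (P n).eval x = bv x (n + 1) := by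
  rw [P, bv, eval_map, aeval_def]; rfl

theorem P_natDegree (n : ℕ) : (P n).natDegree = n := by
  rw [P, natDegree_map_eq_of_injective (RingHom.injective_int _), B_natDegree]

theorem P_lead (n : ℕ) : (P n).leadingCoeff = 1 := by
  rw [P, leadingCoeff_map_of_injective (RingHom.injective_int _), leadingCoeff, B_natDegree,
    B_coeff]
  simp

theorem P_chain (n : ℕ) : ∃ r : ℕ → ℝ, (∀ i < n, 0 < r i) ∧ (∀ i j, i < j → j < n → r i < r j) ∧
      (∀ i < n, ((P n).comp (-X)).eval (r i) = 0) := by
  have hev : ∀ n m, ((P n).comp (-X)).eval m = bv (-m) (n + 1) := by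
    intro n m
    rw [eval_comp, eval_neg, eval_X, P_eval]
  obtain ⟨r, h1, h2, h3, _⟩ := sturm_chain (fun n => (P n).comp (-X)) (fun n => by
      rw [natDegree_comp]; simp [P_natDegree]) (fun n => by
      rw [comp_neg_X_leadingCoeff_eq, P_natDegree, P_lead, mul_one, ← pow_add, ← two_mul,
        pow_mul]; norm_num) (fun n => by
      rw [hev, neg_zero, bv]
      have := B_eval_zero (n + 1)
      have h2 : aeval (0 : ℝ) (B (n + 1)) = (((B (n + 1)).eval 0 : ℤ) : ℝ) := by
        have := aeval_algebraMap_apply_eq_algebraMap_eval (A := ℝ) (0 : ℤ) (B (n + 1))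
        rw [map_zero] at this
        exact this
      rw [h2, this]; norm_num) (by
      intro n r hr h0
      rw [hev] at h0
      rw [hev, hev]
      have e0 := bv_eq r hr n
      have e1 := bv_eq r hr (n + 1)
      have e2 := bv_eq r hr (n + 2)
      have hp : (p r (n + 1)).eval 1 = 0 := by
        rw [h0, zero_mul] at e1
        exact (mul_eq_zero.1 e1.symm).resolve_left (by positivity)
      have hs := sturm hr n one_pos hp
      have hpos : 0 < (1 + r) ^ (2 * n + 1) * (1 + r) ^ (2 * (n + 2) + 1) := by positivity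
      have h4 : ((-1 : ℝ)) ^ n * (-1) ^ (n + 2) = 1 := by
        rw [← pow_add, show n + (n + 2) = 2 * (n + 1) by ring, pow_mul]; norm_num
      have h5 : (bv (-r) (n + 1) * bv (-r) (n + 2 + 1)) *
          ((1 + r) ^ (2 * n + 1) * (1 + r) ^ (2 * (n + 2) + 1)) =
          (p r n).eval 1 * (p r (n + 2)).eval 1 := by
        calc _ = (bv (-r) (n + 1) * (1 + r) ^ (2 * n + 1)) *
              (bv (-r) (n + 2 + 1) * (1 + r) ^ (2 * (n + 2) + 1)) := by ring
          _ = ((-1 : ℝ) ^ n * (-1) ^ (n + 2)) * ((p r n).eval 1 * (p r (n + 2)).eval 1) := by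
            rw [e0, e2]; ring
          _ = _ := by rw [h4, one_mul]
      by_contra h6
      push_neg at h6
      have := mul_nonneg h6 hpos.le
      rw [h5] at this
      linarith) n
  exact ⟨r, h1, h2, h3⟩

/-- The real-rootedness of `B_{n+1}`. -/
theorem main (n : ℕ) : (∀ z : ℂ, aeval z (B (n + 1)) = 0 → z.im = 0) ∧
    {x : ℝ | x < 0 ∧ aeval x (B (n + 1)) = 0}.ncard = n := by
  classical
  obtain ⟨r, h1, h2, h3⟩ := P_chain n
  have hne : P n ≠ 0 := by
    intro h; have := P_lead n; rw [h] at this; simp at this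
  have hne' : (P n).comp (-X) ≠ 0 := by rwa [Ne, comp_neg_X_eq_zero_iff]
  have hd' : ((P n).comp (-X)).natDegree = n := by rw [natDegree_comp]; simp [P_natDegree]
  obtain ⟨h4, h5⟩ := roots_of_full hne' hd' r h2 h3
  have hcard : Multiset.card ((P n).comp (-X)).roots = n := by
    rw [h4, Finset.card_val, Finset.card_image_of_injOn h5, Finset.card_range]
  have hs : ((P n).comp (-X)).Splits := by
    rw [splits_iff_card_roots, hcard, hd']
  have hs2 : (P n).Splits := by
    have := hs.comp_neg_X
    rwa [comp_neg_X_comp_neg_X] at this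
  constructor
  · intro z hz
    have hz2 : aeval z (P n) = 0 := by
      rw [P]
      have : (Int.castRingHom ℝ) = algebraMap ℤ ℝ := rfl
      rw [this, aeval_map_algebraMap]
      exact hz
    rw [hs2.eq_prod_roots, map_mul, aeval_C, mul_eq_zero] at hz2
    rcases hz2 with hz2 | hz2
    · rw [P_lead, map_one] at hz2
      exact absurd hz2 one_ne_zero
    · rw [map_multiset_prod, Multiset.map_map, Multiset.prod_eq_zero_iff, Multiset.mem_map] at hz2
      obtain ⟨a, _, ha⟩ := hz2
      simp only [Function.comp_apply, map_sub, aeval_X, aeval_C] at ha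
      have : z = ((a : ℝ) : ℂ) := sub_eq_zero.1 ha
      rw [this]; simp
  · have hset : {x : ℝ | x < 0 ∧ aeval x (B (n + 1)) = 0} =
        ((image (fun i => - r i) (range n) : Finset ℝ) : Set ℝ) := by
      ext x
      simp only [Set.mem_setOf_eq, Finset.coe_image, Set.mem_image, Finset.mem_coe,
        Finset.mem_range]
      constructor
      · rintro ⟨hx, hx2⟩
        have : -x ∈ ((P n).comp (-X)).roots := by
          rw [mem_roots hne', IsRoot, eval_comp, eval_neg, eval_X, neg_neg, P_eval]
          exact hx2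
        rw [h4, Finset.mem_val] at this
        obtain ⟨i, hi, hxi⟩ := Finset.mem_image.1 this
        exact ⟨i, Finset.mem_range.1 hi, by rw [hxi, neg_neg]⟩
      · rintro ⟨i, hi, rfl⟩
        refine ⟨neg_lt_zero.2 (h1 i hi), ?_⟩
        have := h3 i hi
        rw [eval_comp, eval_neg, eval_X, P_eval] at this
        exact this
    rw [hset, Set.ncard_coe_finset, Finset.card_image_of_injOn, Finset.card_range]
    intro i hi j hj hij
    exact h5 hi hj (neg_injective hij)

end Pool.Agent.Q225.TB
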