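import Mathlib.Algebra.Polynomial.AlgebraMap
import Mathlib.Algebra.Polynomial.Derivative
import Mathlib.Algebra.BigOperators.Fin
import Mathlib.Analysis.SpecialFunctions.Pow.Deriv
import Mathlib.Tactic

/-!
# Type A and type B Poincare polynomials: the recursions, and the auxiliary polynomials
-/

set_option autoImplicit false

namespace Pool.Agent.Q225.TB

open Polynomial Finset

/-- The type A polynomials: `A_0 = A_1 = 1` and
`A_{n+2} = A_{n+1} + x ∑_{k=1}^{n} binom(n+1, k-1) A_{n+2-k} A_k`. -/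
noncomputable def A : ℕ → ℤ[X]
  | 0 => 1
  | 1 => 1
  | (n + 2) => A (n + 1) + X * ∑ k : Fin n,
      C (((n + 1).choose k.val : ℕ) : ℤ) * A (n + 1 - k.val) * A (k.val + 1)
termination_by n => n
decreasing_by
  all_goals omega

/-- The type B polynomials: `B_0 = 1` and
`B_{n+1} = B_n + x ∑_{i=0}^{n-1} binom(n,i) B_{n-i} B_i
  + x ∑_{j=0}^{n-2} binom(n,j) 2^{n-j} A_{n-j} B_{j+1}`. -/
noncomputable def B : ℕ → ℤ[X]
  | 0 => 1
  | (n + 1) => B n + X * ∑ i : Fin n, C ((n.choose i.val : ℕ) : ℤ) * B (n - i.val) * B i.val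
      + X * ∑ j : Fin (n - 1),
        C ((n.choose j.val * 2 ^ (n - j.val) : ℕ) : ℤ) * A (n - j.val) * B (j.val + 1)
termination_by n => n
decreasing_by
  all_goals omega

theorem A_zero : A 0 = 1 := by rw [A]
theorem A_one : A 1 = 1 := by rw [A]
theorem B_zero : B 0 = 1 := by rw [B]

theorem A_succ (n : ℕ) : A (n + 2) = A (n + 1) + X * ∑ k ∈ range n,
    C (((n + 1).choose k : ℕ) : ℤ) * A (n + 1 - k) * A (k + 1) := by
  rw [A, Finset.sum_range (fun k => C (((n + 1).choose k : ℕ) : ℤ) * A (n + 1 - k) * A (k + 1))]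

theorem B_succ (n : ℕ) : B (n + 1) = B n
    + X * ∑ i ∈ range n, C ((n.choose i : ℕ) : ℤ) * B (n - i) * B i
    + X * ∑ j ∈ range (n - 1),
      C ((n.choose j * 2 ^ (n - j) : ℕ) : ℤ) * A (n - j) * B (j + 1) := by
  rw [B, Finset.sum_range (fun i => C ((n.choose i : ℕ) : ℤ) * B (n - i) * B i),
    Finset.sum_range (fun j => C ((n.choose j * 2 ^ (n - j) : ℕ) : ℤ) * A (n - j) * B (j + 1))]

/-- `(m + s^2)(m + s)` -/
noncomputable def aa (m : ℝ) : ℝ[X] := (C m + X ^ 2) * (C m + X)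

/-- The auxiliary polynomials `p_{k+1}(s)` for the parameter `x = -m`. -/
noncomputable def p (m : ℝ) : ℕ → ℝ[X]
  | 0 => C (1 + m)
  | (k + 1) => C (1 + m) * X * aa m * derivative (p m k)
      + p m k * (C (1 + m + 2 * ((k : ℝ) + 1)) * aa m
        - C (1 + m) * X * (C (2 * (2 * (k : ℝ) + 1)) * X * (C m + X)
          + C ((k : ℝ) + 2) * (C m + X ^ 2)))

end Pool.Agent.Q225.TB
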