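import Pool.Agent.Q225.TB.Defs

/-!
# The imaginary part on the imaginary axis
-/

set_option autoImplicit false

namespace Pool.Agent.Q225.TB

open Polynomial Finset

variable (m : ℝ)

/-- polynomials with nonnegative coefficients -/
noncomputable def h : ℕ → ℝ[X]
  | 0 => 1
  | (k + 1) => C (1 + m) * (C m - X) * X * derivative (h k)
      + (C ((2 * (k : ℝ) + 1) * (1 + m)) * X + C (k : ℝ) * (C m - X)) * h k

/-- the polynomials of the imaginary part -/
noncomputable def l : ℕ → ℝ[X]
  | 0 => C (4 * m * (1 + m))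
  | (k + 1) => C (2 * (1 + m)) * (C m - X) * (C (m ^ 2) + X) * X * derivative (l k)
      + l k * (C (2 + 2 * m + 2 * ((k : ℝ) + 1)) * (C m - X) * (C (m ^ 2) + X)
        - C (2 * (1 + m) * ((k : ℝ) + 2)) * X * (C m - X)
        + C (2 * (1 + m) * (2 * (k : ℝ) + 1)) * X * (C (m ^ 2) + X))

theorem h_deg (k : ℕ) : (h m k).natDegree ≤ k := by
  induction k with
  | zero => simp [h]
  | succ k ih =>
    rw [h]
    have h1 : (derivative (h m k)).natDegree ≤ k - 1 :=
      (natDegree_derivative_le _).trans (by omega)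
    have h2 : (derivative (h m k)).natDegree + 2 ≤ k + 1 ∨ derivative (h m k) = 0 := by
      rcases Nat.eq_zero_or_pos k with rfl | hk
      · right
        rw [derivative_of_natDegree_zero (by omega)]
      · left; omega
    have h3 : (C m - X : ℝ[X]).natDegree ≤ 1 := by compute_degree
    refine natDegree_add_le_of_degree_le ?_ ?_
    · rcases h2 with h2 | h2
      · calc _ ≤ (C (1 + m) : ℝ[X]).natDegree + (C m - X : ℝ[X]).natDegree + (X : ℝ[X]).natDegree
              + (derivative (h m k)).natDegree := by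
              refine (natDegree_mul_le).trans (Nat.add_le_add_right ?_ _)
              refine (natDegree_mul_le).trans (Nat.add_le_add_right ?_ _)
              exact natDegree_mul_le
          _ ≤ k + 1 := by simp only [natDegree_C, natDegree_X]; omega
      · rw [h2, mul_zero]; simp
    · refine (natDegree_mul_le).trans ?_
      have h4 : (C ((2 * (k : ℝ) + 1) * (1 + m)) * X + C (k : ℝ) * (C m - X) : ℝ[X]).natDegree
          ≤ 1 := by compute_degree
      omega

theorem h_coeff (k j : ℕ) : (h m (k + 1)).coeff (j + 1) =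
    m * ((1 + m) * (j + 1) + k) * (h m k).coeff (j + 1)
      + ((1 + m) * (2 * k + 1 - j) - k) * (h m k).coeff j := by
  rw [h]
  have e1 : C (1 + m) * (C m - X) * X * derivative (h m k) =
      C ((1 + m) * m) * (derivative (h m k) * X) - C (1 + m) * (derivative (h m k) * X * X) := by
    simp only [map_mul]; ring
  have e2 : (C ((2 * (k : ℝ) + 1) * (1 + m)) * X + C (k : ℝ) * (C m - X)) * h m k =
      C ((2 * (k : ℝ) + 1) * (1 + m) - k) * (h m k * X) + C (k * m) * h m k := by
    simp only [map_mul, map_sub]; ring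
  rw [e1, e2]
  simp only [coeff_add, coeff_sub, coeff_C_mul, coeff_mul_X, coeff_derivative]
  rcases j with _ | j
  · simp only [coeff_mul_X_zero]
    push_cast; ring
  · simp only [coeff_mul_X, coeff_derivative]
    push_cast; ring

theorem h_coeff_zero (k : ℕ) : (h m (k + 1)).coeff 0 = m * k * (h m k).coeff 0 := by
  rw [h]
  have e1 : C (1 + m) * (C m - X) * X * derivative (h m k) =
      (C (1 + m) * (C m - X) * derivative (h m k)) * X := by ring
  have e2 : (C ((2 * (k : ℝ) + 1) * (1 + m)) * X + C (k : ℝ) * (C m - X)) * h m k =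
      C ((2 * (k : ℝ) + 1) * (1 + m) - k) * (h m k * X) + C (k * m) * h m k := by
    simp only [map_mul, map_sub]; ring
  rw [e1, e2]
  simp only [coeff_add, coeff_C_mul, coeff_mul_X_zero]
  ring

variable {m}

theorem h_pos (hm : 0 < m) (k : ℕ) :
    (∀ j, 0 ≤ (h m k).coeff j) ∧ 0 < (h m k).coeff k := by
  induction k with
  | zero =>
    refine ⟨fun j => ?_, by simp [h]⟩
    simp only [h, coeff_one]
    split_ifs <;> norm_num
  | succ k ih =>
    constructor
    · intro j
      rcases j with _ | j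
      · rw [h_coeff_zero]
        exact mul_nonneg (by positivity) (ih.1 0)
      · rw [h_coeff]
        have h1 : 0 ≤ m * ((1 + m) * ((j : ℝ) + 1) + k) * (h m k).coeff (j + 1) :=
          mul_nonneg (by positivity) (ih.1 _)
        rcases Nat.lt_or_ge k j with hj | hj
        · rw [coeff_eq_zero_of_natDegree_lt ((h_deg m k).trans_lt hj), mul_zero, add_zero]
          exact h1
        · have h2 : 0 ≤ ((1 + m) * (2 * (k : ℝ) + 1 - j) - k) := by
            have hj' : (j : ℝ) ≤ k := by exact_mod_cast hj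
            have hk : (0 : ℝ) ≤ k := Nat.cast_nonneg k
            nlinarith
          exact add_nonneg h1 (mul_nonneg h2 (ih.1 _))
    · rw [h_coeff, coeff_eq_zero_of_natDegree_lt ((h_deg m k).trans_lt (Nat.lt_succ_self k)),
        mul_zero, zero_add]
      have hk : (0 : ℝ) ≤ k := Nat.cast_nonneg k
      refine mul_pos ?_ ih.2
      nlinarith

theorem h_eval_pos (hm : 0 < m) (k : ℕ) {w : ℝ} (hw : 0 < w) : 0 < (h m k).eval w := by
  rw [eval_eq_sum_range' (Nat.lt_succ_of_le (h_deg m k))]
  obtain ⟨h1, h2⟩ := h_pos hm k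
  refine Finset.sum_pos' (fun i _ => mul_nonneg (h1 i) (pow_nonneg hw.le _)) ?_
  exact ⟨k, Finset.mem_range.2 (Nat.lt_succ_self k), mul_pos h2 (pow_pos hw _)⟩

variable (m)

/-- the identity expressing `l_{k+1}` -/
theorem l_ident (k : ℕ) : X * l m (k + 1) =
    C (m * 2 ^ (k + 3)) * h m (k + 1) * (C (m ^ 2) + X) ^ (k + 2)
      + C (2 * ((k : ℝ) + 2) * m) * X * (C m - X) ^ 2 * l m k := by
  induction k with
  | zero =>
    simp only [l, h, derivative_C, derivative_one, mul_zero, zero_add]
    simp only [map_mul, map_add,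
      map_pow, map_one, map_ofNat, Nat.cast_zero, map_zero, zero_mul, add_zero]
    ring
  | succ k ih =>
    have hd := congrArg derivative ih
    have e1 : l m (k + 1 + 1) = C (2 * (1 + m)) * (C m - X) * (C (m ^ 2) + X) * X
        * derivative (l m (k + 1))
      + l m (k + 1) * (C (2 + 2 * m + 2 * (((k + 1 : ℕ) : ℝ) + 1)) * (C m - X) * (C (m ^ 2) + X)
        - C (2 * (1 + m) * (((k + 1 : ℕ) : ℝ) + 2)) * X * (C m - X)
        + C (2 * (1 + m) * (2 * ((k + 1 : ℕ) : ℝ) + 1)) * X * (C (m ^ 2) + X)) := rfl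
    have e2 : l m (k + 1) = C (2 * (1 + m)) * (C m - X) * (C (m ^ 2) + X) * X
        * derivative (l m k)
      + l m k * (C (2 + 2 * m + 2 * ((k : ℝ) + 1)) * (C m - X) * (C (m ^ 2) + X)
        - C (2 * (1 + m) * ((k : ℝ) + 2)) * X * (C m - X)
        + C (2 * (1 + m) * (2 * (k : ℝ) + 1)) * X * (C (m ^ 2) + X)) := rfl
    have e3 : h m (k + 1 + 1) = C (1 + m) * (C m - X) * X * derivative (h m (k + 1))
      + (C ((2 * ((k + 1 : ℕ) : ℝ) + 1) * (1 + m)) * X + C ((k + 1 : ℕ) : ℝ) * (C m - X))
        * h m (k + 1) := rfl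
    rw [e1, e3]
    simp only [derivative_mul, derivative_X, derivative_C, derivative_add, derivative_sub,
      derivative_X_pow, derivative_pow, one_mul, zero_mul, mul_zero, zero_add, add_zero, zero_sub,
      mul_one, Nat.add_sub_cancel, map_add, map_mul, map_pow, map_one, map_ofNat, map_natCast,
      Nat.cast_add, Nat.cast_one, Nat.cast_ofNat] at hd ih e2 ⊢
    have d2 : derivative (2 : ℝ[X]) = 0 := derivative_ofNat 2
    have dk : derivative (k : ℝ[X]) = 0 := derivative_natCast
    have hk1 : k + 2 - 1 = k + 1 := rfl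
    simp only [d2, dk, hk1, mul_zero, zero_mul, add_zero, zero_add] at hd
    set μ : ℝ[X] := C m
    set L1 := l m (k + 1)
    set L0 := l m k
    set L1' := derivative L1
    set L0' := derivative L0
    set H := h m (k + 1)
    set H' := derivative H
    linear_combination (2 * (1 + μ) * (μ - X) * (μ ^ 2 + X) * X) * hd
      + (-2 * (1 + μ) * (μ - X) * (μ ^ 2 + X)
        + ((2 + 2 * μ + 2 * ((k : ℝ[X]) + 2)) * (μ - X) * (μ ^ 2 + X)
        - (2 * (1 + μ) * ((k : ℝ[X]) + 3)) * X * (μ - X)
        + (2 * (1 + μ) * (2 * (k : ℝ[X]) + 3)) * X * (μ ^ 2 + X)) - 2 * μ * (μ - X) ^ 2) * ih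
      - (2 * ((k : ℝ[X]) + 2) * μ * X * (μ - X) ^ 2) * e2

end Pool.Agent.Q225.TB
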