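import Pool.Agent.Q225.TB.Ident
import Mathlib.Analysis.Complex.Basic

/-!
# The imaginary part on the imaginary axis, II
-/

set_option autoImplicit false

namespace Pool.Agent.Q225.TB

open Polynomial Finset

variable {m : ℝ}

theorem l_zero_pos (hm : 0 < m) (k : ℕ) : 0 < (l m k).eval 0 := by
  induction k with
  | zero => simp only [l, eval_C]; positivity
  | succ k ih =>
    have : (l m (k + 1)).eval 0 = (l m k).eval 0 * ((2 + 2 * m + 2 * ((k : ℝ) + 1)) * m * m ^ 2) := by
      simp [l]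
    rw [this]
    positivity

theorem l_pos (hm : 0 < m) (k : ℕ) {w : ℝ} (hw : 0 ≤ w) : 0 < (l m k).eval w := by
  rcases hw.eq_or_lt with rfl | hw
  · exact l_zero_pos hm k
  induction k with
  | zero => simp only [l, eval_C]; positivity
  | succ k ih =>
    have h1 := congrArg (Polynomial.eval w) (l_ident m k)
    simp only [eval_mul, eval_add, eval_sub, eval_pow, eval_X, eval_C] at h1
    have h2 := h_eval_pos hm (k + 1) hw
    have h3 : 0 < w * (l m (k + 1)).eval w := by
      rw [h1]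
      have : 0 ≤ 2 * ((k : ℝ) + 2) * m * w * (m - w) ^ 2 * eval w (l m k) := by positivity
      have h4 : 0 < m * 2 ^ (k + 3) * eval w (h m (k + 1)) * (m ^ 2 + w) ^ (k + 2) := by positivity
      linarith
    exact pos_of_mul_pos_right h3 hw.le

variable (m)

theorem odd_part (k : ℕ) : p m k * (C m - X) ^ (k + 2) - (p m k).comp (-X) * (C m + X) ^ (k + 2) =
    -X * (l m k).comp (-X ^ 2) := by
  induction k with
  | zero =>
    simp only [p, l, C_comp]
    simp only [map_mul, map_add, map_one, map_ofNat]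
    ring
  | succ k ih =>
    have hd := congrArg derivative ih
    have e1 : p m (k + 1) = C (1 + m) * X * ((C m + X ^ 2) * (C m + X)) * derivative (p m k)
      + p m k * (C (1 + m + 2 * ((k : ℝ) + 1)) * ((C m + X ^ 2) * (C m + X))
        - C (1 + m) * X * (C (2 * (2 * (k : ℝ) + 1)) * X * (C m + X)
          + C ((k : ℝ) + 2) * (C m + X ^ 2))) := rfl
    have e2 : l m (k + 1) = C (2 * (1 + m)) * (C m - X) * (C (m ^ 2) + X) * X
        * derivative (l m k)
      + l m k * (C (2 + 2 * m + 2 * ((k : ℝ) + 1)) * (C m - X) * (C (m ^ 2) + X)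
        - C (2 * (1 + m) * ((k : ℝ) + 2)) * X * (C m - X)
        + C (2 * (1 + m) * (2 * (k : ℝ) + 1)) * X * (C (m ^ 2) + X)) := rfl
    have d2 : derivative (2 : ℝ[X]) = 0 := derivative_ofNat 2
    have dk : derivative (k : ℝ[X]) = 0 := derivative_natCast
    have hk1 : k + 2 - 1 = k + 1 := rfl
    have hk2 : 2 - 1 = 1 := rfl
    rw [e1, e2]
    simp only [derivative_mul, derivative_X, derivative_C, derivative_add, derivative_sub,
      derivative_neg, derivative_comp,
      derivative_X_pow, derivative_pow, one_mul, zero_mul, mul_zero, zero_add, add_zero, zero_sub,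
      mul_one, map_add, map_mul, map_pow, map_one, map_ofNat, map_natCast, d2, dk, hk1, hk2,
      pow_one,
      Nat.cast_add, Nat.cast_one, Nat.cast_ofNat, mul_comp, add_comp, sub_comp, pow_comp, C_comp,
      X_comp, natCast_comp, ofNat_comp, one_comp] at hd ih ⊢
    set μ : ℝ[X] := C m
    set P := p m k
    set P' := derivative P
    set c := P.comp (-X)
    set c' := P'.comp (-X)
    set lc := (l m k).comp (-X ^ 2)
    set lc' := (derivative (l m k)).comp (-X ^ 2)
    linear_combination ((1 + μ) * (μ + X ^ 2) * (μ ^ 2 - X ^ 2) * X) * hd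
      + ((1 + μ + 2 * ((k : ℝ[X]) + 1)) * (μ + X ^ 2) * (μ ^ 2 - X ^ 2)
        + 2 * (1 + μ) * ((k : ℝ[X]) + 2) * X ^ 2 * (μ + X ^ 2)
        - 2 * (1 + μ) * (2 * (k : ℝ[X]) + 1) * X ^ 2 * (μ ^ 2 - X ^ 2)) * ih

/-- The imaginary part of `p(iσ)(m - iσ)^{k+2}`. -/
theorem im_eq (k : ℕ) (t : ℝ) :
    (aeval (Complex.I * t) (p m k) * ((m : ℂ) - Complex.I * t) ^ (k + 2)).im =
      - (t * (l m k).eval (t ^ 2)) / 2 := by
  have h := congrArg (aeval (Complex.I * (t : ℂ))) (odd_part m k)
  simp only [map_sub, map_mul, map_pow, map_add, map_neg, aeval_X, aeval_C, aeval_comp] at h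
  have hC : (algebraMap ℝ ℂ) m = (m : ℂ) := rfl
  rw [hC] at h
  set z := aeval (Complex.I * (t : ℂ)) (p m k) * ((m : ℂ) - Complex.I * t) ^ (k + 2) with hz
  have hconj : (starRingEnd ℂ) z = aeval (-(Complex.I * (t : ℂ))) (p m k) *
      ((m : ℂ) + Complex.I * t) ^ (k + 2) := by
    rw [hz, map_mul, map_pow, map_sub, map_mul, Complex.conj_I, Complex.conj_ofReal,
      Complex.conj_ofReal]
    congr 1
    · have h5 := Polynomial.aeval_algHom_apply (Complex.conjAe : ℂ →ₐ[ℝ] ℂ)
        (Complex.I * (t : ℂ)) (p m k)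
      have h6 : (Complex.conjAe : ℂ →ₐ[ℝ] ℂ) (Complex.I * (t : ℂ)) = -(Complex.I * (t : ℂ)) := by
        change (starRingEnd ℂ) _ = _
        rw [map_mul, Complex.conj_I, Complex.conj_ofReal]; ring
      rw [h6] at h5
      exact h5.symm
    · ring
  rw [← hconj] at h
  have hsq : -(Complex.I * (t : ℂ)) ^ 2 = ((t ^ 2 : ℝ) : ℂ) := by
    rw [mul_pow, Complex.I_sq]; push_cast; ring
  have hl : aeval (((t ^ 2 : ℝ)) : ℂ) (l m k) = (((l m k).eval (t ^ 2) : ℝ) : ℂ) := by
    have h7 := Polynomial.aeval_algebraMap_apply ℂ (t ^ 2) (l m k)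
    rw [Polynomial.coe_aeval_eq_eval] at h7
    exact h7
  rw [hsq, hl, Complex.sub_conj] at h
  have h2 := congrArg Complex.im h
  simp at h2
  linarith

end Pool.Agent.Q225.TB
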