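import Mathlib.RingTheory.PowerSeries.Derivative
import Mathlib.RingTheory.PowerSeries.Inverse
import Pool.Agent.Q225.TB.Defs

/-!
# Exponential generating functions of the type A and type B polynomials
-/

set_option autoImplicit false

namespace Pool.Agent.Q225.TB

open PowerSeries Finset
open scoped Nat

/-- `n!` times the `n`-th coefficient -/
noncomputable def e (n : ℕ) (f : ℝ⟦X⟧) : ℝ := (n ! : ℝ) * coeff n f

theorem e_add (n : ℕ) (f g : ℝ⟦X⟧) : e n (f + g) = e n f + e n g := by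
  simp [e, mul_add]

theorem e_sub (n : ℕ) (f g : ℝ⟦X⟧) : e n (f - g) = e n f - e n g := by
  simp [e, mul_sub]

theorem e_C_mul (n : ℕ) (c : ℝ) (f : ℝ⟦X⟧) : e n (C c * f) = c * e n f := by
  simp [e]; ring

theorem e_der (n : ℕ) (f : ℝ⟦X⟧) : e n (d⁄dX ℝ f) = e (n + 1) f := by
  simp only [e, coeff_derivative, Nat.factorial_succ]
  push_cast; ring

theorem e_mul (n : ℕ) (f g : ℝ⟦X⟧) :
    e n (f * g) = ∑ k ∈ range (n + 1), (n.choose k : ℝ) * e k f * e (n - k) g := by
  simp only [e, coeff_mul, Finset.Nat.sum_antidiagonal_eq_sum_range_succ_mk, Finset.mul_sum]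
  refine Finset.sum_congr rfl fun k hk => ?_
  have hk' : k ≤ n := Nat.lt_succ_iff.1 (Finset.mem_range.1 hk)
  have := Nat.choose_mul_factorial_mul_factorial hk'
  have h2 : (n ! : ℝ) = (n.choose k : ℝ) * (k ! : ℝ) * ((n - k)! : ℝ) := by
    rw [← this]; push_cast; ring
  rw [h2]; ring

theorem e_ext {f g : ℝ⟦X⟧} (h : ∀ n, e n f = e n g) : f = g := by
  ext n
  have := h n
  simp only [e] at this
  exact mul_left_cancel₀ (by exact_mod_cast Nat.factorial_ne_zero n) this

/-- exponential generating function -/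
noncomputable def ser (a : ℕ → ℝ) : ℝ⟦X⟧ := PowerSeries.mk fun n => a n / (n ! : ℝ)

theorem e_ser (a : ℕ → ℝ) (n : ℕ) : e n (ser a) = a n := by
  have : (n ! : ℝ) ≠ 0 := by exact_mod_cast Nat.factorial_ne_zero n
  simp only [e, ser, coeff_mk]
  field_simp

/-- value of `A_n` at `x` -/
noncomputable def av (x : ℝ) (n : ℕ) : ℝ := Polynomial.aeval x (A n)
/-- value of `B_n` at `x` -/
noncomputable def bv (x : ℝ) (n : ℕ) : ℝ := Polynomial.aeval x (B n)

theorem av_zero (x : ℝ) : av x 0 = 1 := by simp [av, A_zero]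
theorem av_one (x : ℝ) : av x 1 = 1 := by simp [av, A_one]
theorem bv_zero (x : ℝ) : bv x 0 = 1 := by simp [bv, B_zero]

theorem av_succ (x : ℝ) (n : ℕ) : av x (n + 2) = av x (n + 1) + x * ∑ k ∈ range n,
    ((n + 1).choose k : ℝ) * av x (n + 1 - k) * av x (k + 1) := by
  simp [av, A_succ]

theorem bv_succ (x : ℝ) (n : ℕ) : bv x (n + 1) = bv x n
    + x * ∑ i ∈ range n, (n.choose i : ℝ) * bv x (n - i) * bv x i
    + x * ∑ j ∈ range (n - 1),
      ((n.choose j : ℝ) * 2 ^ (n - j)) * av x (n - j) * bv x (j + 1) := by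
  have h := congrArg (Polynomial.aeval x) (B_succ n)
  rw [bv, h]
  simp only [map_add, map_mul, map_sum, Polynomial.aeval_X,
    eq_intCast, map_natCast, map_intCast, Nat.cast_mul, Nat.cast_pow, Nat.cast_ofNat,
    Int.cast_pow, Int.cast_ofNat, map_pow, map_ofNat]
  simp only [bv, av]

/-- `y = 1 + phi(2t)` -/
noncomputable def yy (x : ℝ) : ℝ⟦X⟧ := ser fun n => 2 ^ n * av x n
/-- `W = 1 - x (phi(2t) - 2t)` -/
noncomputable def WW (x : ℝ) : ℝ⟦X⟧ := 1 - C x * (yy x - 1 - C 2 * X)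
/-- the generating function of type B -/
noncomputable def BB (x : ℝ) : ℝ⟦X⟧ := ser (bv x)

theorem e_one (n : ℕ) : e n (1 : ℝ⟦X⟧) = if n = 0 then 1 else 0 := by
  simp only [e, coeff_one]
  split_ifs with h <;> simp [h]

theorem e_X (n : ℕ) : e n (X : ℝ⟦X⟧) = if n = 1 then 1 else 0 := by
  simp only [e, coeff_X]
  split_ifs with h <;> simp [h]

theorem e_W_zero (x : ℝ) : e 0 (WW x) = 1 := by
  simp [WW, e_sub, e_C_mul, e_one, e_X, yy, e_ser, av_zero]

theorem e_W_one (x : ℝ) : e 1 (WW x) = 0 := by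
  simp [WW, e_sub, e_C_mul, e_one, e_X, yy, e_ser, av_one]

theorem e_W (x : ℝ) (n : ℕ) : e (n + 2) (WW x) = - x * (2 ^ (n + 2) * av x (n + 2)) := by
  simp [WW, e_sub, e_C_mul, e_one, e_X, yy, e_ser]

/-- a product with `W` -/
theorem e_mul_W (x : ℝ) (n : ℕ) (f : ℝ⟦X⟧) :
    e n (f * WW x) = e n f - x * ∑ k ∈ range (n - 1),
      (n.choose k : ℝ) * e k f * (2 ^ (n - k) * av x (n - k)) := by
  rw [e_mul, Finset.sum_range_succ]
  simp only [Nat.choose_self, Nat.cast_one, one_mul, Nat.sub_self, e_W_zero, mul_one]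
  have key : ∑ k ∈ range n, (n.choose k : ℝ) * e k f * e (n - k) (WW x) =
      - (x * ∑ k ∈ range (n - 1),
      (n.choose k : ℝ) * e k f * (2 ^ (n - k) * av x (n - k))) := by
    rcases n with _ | n
    · simp
    · rw [Finset.sum_range_succ]
      have h1 : n + 1 - n = 1 := by omega
      rw [h1, e_W_one, mul_zero, add_zero, Nat.add_sub_cancel, Finset.mul_sum,
        ← Finset.sum_neg_distrib]
      refine Finset.sum_congr rfl fun k hk => ?_
      have hk' := Finset.mem_range.1 hk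
      obtain ⟨j, hj⟩ : ∃ j, n + 1 - k = j + 2 := ⟨n - 1 - k, by omega⟩
      rw [hj, e_W]; ring
  rw [key]; ring

/-- the type A differential equation -/
theorem odeA (x : ℝ) : d⁄dX ℝ (yy x) * WW x = C 2 * yy x := by
  apply e_ext
  intro n
  rw [e_mul_W, e_C_mul, e_der]
  simp only [e_der]
  simp only [yy, e_ser]
  rcases n with _ | n
  · simp [av_one, av_zero]
  · rw [av_succ, Nat.add_sub_cancel, Finset.mul_sum, Finset.mul_sum]
    have : ∀ k ∈ range n, x * (((n + 1).choose k : ℝ) * (2 ^ (k + 1) * av x (k + 1)) *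
        (2 ^ (n + 1 - k) * av x (n + 1 - k))) = 2 ^ (n + 1 + 1) * (x * (((n + 1).choose k : ℝ) *
        av x (n + 1 - k) * av x (k + 1))) := by
      intro k hk
      have hk' := Finset.mem_range.1 hk
      have h2 : (2 : ℝ) ^ (k + 1) * 2 ^ (n + 1 - k) = 2 ^ (n + 1 + 1) := by
        rw [← pow_add]; congr 1; omega
      rw [← h2]; ring
    rw [Finset.sum_congr rfl this, mul_add, Finset.mul_sum]
    ring

/-- the type B differential equation -/
theorem odeB (x : ℝ) : d⁄dX ℝ (BB x) * WW x = C (1 - x) * BB x + C x * (BB x * BB x) := by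
  apply e_ext
  intro n
  rw [e_mul_W, e_add, e_C_mul, e_C_mul, e_der, e_mul, Finset.sum_range_succ]
  simp only [e_der]
  simp only [BB, e_ser]
  rw [bv_succ]
  simp only [Nat.sub_self, Nat.choose_self, Nat.cast_one, bv_zero]
  have h1 : ∑ k ∈ range n, (n.choose k : ℝ) * bv x k * bv x (n - k) =
      ∑ i ∈ range n, (n.choose i : ℝ) * bv x (n - i) * bv x i :=
    Finset.sum_congr rfl fun k _ => by ring
  have h2 : ∑ k ∈ range (n - 1), (n.choose k : ℝ) * bv x (k + 1) * (2 ^ (n - k) * av x (n - k)) =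
      ∑ j ∈ range (n - 1), ((n.choose j : ℝ) * 2 ^ (n - j)) * av x (n - j) * bv x (j + 1) :=
    Finset.sum_congr rfl fun k _ => by ring
  rw [h1, h2]
  ring

end Pool.Agent.Q225.TB
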