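import Pool.Agent.Q225.TB.Series

/-!
# The value `B_n(-m)` in terms of the auxiliary polynomials
-/

set_option autoImplicit false

namespace Pool.Agent.Q225.TB

open PowerSeries Finset
open scoped Nat

/-- uniqueness for a linear differential equation -/
theorem ode_zero {f W : ℝ⟦X⟧} {c : ℝ} (hW : e 0 W = 1) (h : d⁄dX ℝ f * W = C c * f)
    (h0 : e 0 f = 0) : f = 0 := by
  have key : ∀ n, ∀ k ≤ n, e k f = 0 := by
    intro n
    induction n with
    | zero => intro k hk; obtain rfl : k = 0 := by omega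
              exact h0
    | succ n ih =>
      intro k hk
      rcases Nat.lt_or_ge k (n + 1) with hk' | hk'
      · exact ih k (by omega)
      · obtain rfl : k = n + 1 := by omega
        have h1 := congrArg (e n) h
        rw [e_C_mul, e_mul, Finset.sum_range_succ, ih n le_rfl, mul_zero] at h1
        rw [Finset.sum_eq_zero] at h1
        · simpa [hW, e_der] using h1
        · intro j hj
          rw [e_der, ih (j + 1) (by have := Finset.mem_range.1 hj; omega)]
          ring
  apply e_ext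
  intro n
  rw [key n n le_rfl]
  simp [e]

theorem e_zero_eq (f : ℝ⟦X⟧) : e 0 f = constantCoeff f := by
  simp [e]

variable (m : ℝ)

/-- the variable `s` -/
noncomputable def ss : ℝ⟦X⟧ := C (1 + m) * (BB (-m))⁻¹ - C m

theorem cc_BB : constantCoeff (BB (-m)) = 1 := by
  rw [← e_zero_eq, BB, e_ser, bv_zero]

theorem cc_yy : constantCoeff (yy (-m)) = 1 := by
  rw [← e_zero_eq, yy, e_ser, av_zero]; simp

theorem BB_inv : BB (-m) * (BB (-m))⁻¹ = 1 :=
  PowerSeries.mul_inv_cancel _ (by rw [cc_BB]; norm_num)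

theorem F1 : BB (-m) * (C m + ss m) = C (1 + m) := by
  have := BB_inv m
  rw [ss]
  linear_combination (C (1 + m)) * this

theorem cc_ss : constantCoeff (ss m) = 1 := by
  have h := congrArg constantCoeff (F1 m)
  simp only [map_mul, map_add, constantCoeff_C, cc_BB, one_mul] at h
  linarith

theorem der_C_mul (c : ℝ) (f : ℝ⟦X⟧) : d⁄dX ℝ (C c * f) = C c * d⁄dX ℝ f := by
  rw [Derivation.leibniz, derivative_C, smul_zero, add_zero, smul_eq_mul]

theorem F2 : d⁄dX ℝ (ss m) * WW (-m) = - (C (1 + m) * ss m) := by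
  have hB := BB_inv m
  have ho := odeB (-m)
  rw [ss, map_sub, der_C_mul, derivative_inv', derivative_C, sub_zero]
  simp only [map_add, map_sub, map_neg, map_one] at ho ⊢
  set b := (BB (-m))⁻¹ with hb
  set Bs := BB (-m)
  set μ : ℝ⟦X⟧ := C m
  linear_combination (-(1 + μ) * b ^ 2) * ho +
    (-(1 + μ) ^ 2 * b + (1 + μ) * μ * (Bs * b + 1)) * hB

theorem F3 : (C m + ss m ^ 2) * yy (-m) = C (1 + m) * WW (-m) := by
  have h2 := F2 m
  have hA := odeA (-m)
  have : (C m + ss m ^ 2) * yy (-m) - C (1 + m) * WW (-m) = 0 := by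
    apply ode_zero (W := WW (-m)) (c := -2 * m) (e_W_zero (-m))
    · rw [map_sub, der_C_mul, Derivation.leibniz, map_add, derivative_C, zero_add,
        Derivation.leibniz_pow]
      have hW : d⁄dX ℝ (WW (-m)) = C m * (d⁄dX ℝ (yy (-m)) - C 2) := by
        rw [WW, map_sub, der_C_mul, map_sub, map_sub, der_C_mul, derivative_X, derivative_one]
        simp only [map_neg]
        ring
      rw [hW]
      simp only [smul_eq_mul, nsmul_eq_mul, map_add, map_mul, map_neg, map_one,
        map_ofNat] at h2 hA ⊢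
      push_cast
      set μ : ℝ⟦X⟧ := C m
      set W := WW (-m)
      set y := yy (-m)
      set s := ss m
      linear_combination (2 * s * y) * h2 + (μ + s ^ 2 - (1 + μ) * μ) * hA
    · rw [e_zero_eq]
      have hW : constantCoeff (WW (-m)) = 1 := by rw [← e_zero_eq, e_W_zero]
      simp only [map_sub, map_mul, map_add, map_pow, constantCoeff_C, cc_ss, cc_yy, hW]
      ring
  exact sub_eq_zero.1 this

theorem yy_ne : yy (-m) ≠ 0 := by
  intro h
  have := cc_yy m
  rw [h] at this
  simp at this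

theorem F4 : (C m + ss m ^ 2) * yy (-m) * d⁄dX ℝ (ss m) = - (C (1 + m) ^ 2 * ss m) := by
  have h2 := F2 m
  have h3 := F3 m
  linear_combination (d⁄dX ℝ (ss m)) * h3 + (C (1 + m)) * h2

theorem F5 : (C m + ss m ^ 2) * d⁄dX ℝ (yy (-m)) = 2 * C (1 + m) := by
  have hA := odeA (-m)
  have h3 := F3 m
  have : yy (-m) * ((C m + ss m ^ 2) * d⁄dX ℝ (yy (-m))) = yy (-m) * (2 * C (1 + m)) := by
    have h22 : (C (2 : ℝ) : ℝ⟦X⟧) = 2 := map_ofNat C 2
    rw [h22] at hA
    linear_combination (d⁄dX ℝ (yy (-m))) * h3 + (C (1 + m)) * hA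
  exact mul_left_cancel₀ (yy_ne m) this

/-- the main identity -/
theorem F6 (k : ℕ) : (d⁄dX ℝ)^[k + 1] (BB (-m)) * (C m + ss m ^ 2) ^ (2 * k + 1)
    * (C m + ss m) ^ (k + 2) * yy (-m) ^ (k + 1) =
    (-1) ^ k * C (1 + m) ^ (k + 2) * (ss m * Polynomial.aeval (ss m) (p m k)) := by
  have h1 := F4 m
  have h2 := F5 m
  induction k with
  | zero =>
    have h := congrArg (d⁄dX ℝ) (F1 m)
    have h0 := F1 m
    rw [Derivation.leibniz, map_add, derivative_C, derivative_C, zero_add] at h
    simp only [smul_eq_mul] at h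
    simp only [Function.iterate_succ, Function.iterate_zero, Function.comp_apply, id_eq,
      p, Polynomial.aeval_C]
    have hC : (algebraMap ℝ ℝ⟦X⟧) (1 + m) = C (1 + m) := rfl
    rw [hC]
    linear_combination ((C m + ss m) * (C m + ss m ^ 2) * yy (-m)) * h
      - (C (1 + m)) * h1 - (yy (-m) * (C m + ss m ^ 2) * d⁄dX ℝ (ss m)) * h0
  | succ k ih =>
    have hD := congrArg (d⁄dX ℝ) ih
    have hm1 : d⁄dX ℝ (-1 : ℝ⟦X⟧) = 0 := by rw [map_neg, derivative_one, neg_zero]
    simp only [Derivation.leibniz, Derivation.leibniz_pow, hm1, map_add, derivative_C, zero_add,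
      Derivation.map_aeval, smul_eq_mul, nsmul_eq_mul, mul_zero, add_zero,
      Nat.add_sub_cancel] at hD
    rw [Function.iterate_succ_apply']
    have hP : Polynomial.aeval (ss m) (p m (k + 1)) =
        C (1 + m) * ss m * ((C m + ss m ^ 2) * (C m + ss m))
          * Polynomial.aeval (ss m) (Polynomial.derivative (p m k))
        + Polynomial.aeval (ss m) (p m k) * (C (1 + m + 2 * ((k : ℝ) + 1))
          * ((C m + ss m ^ 2) * (C m + ss m))
          - C (1 + m) * ss m * (C (2 * (2 * (k : ℝ) + 1)) * ss m * (C m + ss m)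
            + C ((k : ℝ) + 2) * (C m + ss m ^ 2))) := by
      have hC : ∀ c : ℝ, (algebraMap ℝ ℝ⟦X⟧) c = C c := fun _ => rfl
      simp only [p, aa, map_add, map_sub, map_mul, map_pow, Polynomial.aeval_X,
        Polynomial.aeval_C, hC]
    rw [hP]
    simp only [map_add, map_mul, map_one, map_ofNat, map_natCast] at hD ih h1 h2 ⊢
    push_cast at hD ⊢
    set Z := (d⁄dX ℝ)^[k + 1] (BB (-m))
    set μ : ℝ⟦X⟧ := C m
    set y := yy (-m)
    set s := ss m
    set P := Polynomial.aeval s (p m k)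
    set P' := Polynomial.aeval s (Polynomial.derivative (p m k))
    set s' := d⁄dX ℝ s
    set y' := d⁄dX ℝ y
    set DZ := d⁄dX ℝ Z
    linear_combination ((μ + s ^ 2) ^ 2 * (μ + s) * y) * hD
      + ((μ + s ^ 2) * (μ + s) * ((-1) ^ k * (1 + μ) ^ (k + 2)) * (P + s * P')) * h1
      - (Z * ((μ + s ^ 2) ^ (2 * k + 1) * (μ + s) ^ (k + 2) * y ^ (k + 1)))
        * ((2 * k + 1) * 2 * s * (μ + s) + (k + 2) * (μ + s ^ 2)) * h1
      - (Z * ((μ + s ^ 2) ^ (2 * k + 1) * (μ + s) ^ (k + 2) * y ^ (k + 1)))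
        * ((k + 1) * (μ + s ^ 2) * (μ + s)) * h2
      - (((2 * k + 1) * 2 * s * (μ + s) + (k + 2) * (μ + s ^ 2)) * (-(1 + μ) ^ 2 * s)
        + (k + 1) * 2 * (1 + μ) * (μ + s ^ 2) * (μ + s)) * ih

/-- **Values of the type B polynomials at `-m`.** -/
theorem bv_eq (hm : 0 < m) (k : ℕ) :
    bv (-m) (k + 1) * (1 + m) ^ (2 * k + 1) = (-1) ^ k * (p m k).eval 1 := by
  have h := congrArg constantCoeff (F6 m k)
  have h1 : constantCoeff ((d⁄dX ℝ)^[k + 1] (BB (-m))) = bv (-m) (k + 1) := by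
    rw [constantCoeff_iterate_derivative, ← e_ser (bv (-m)) (k + 1)]
    rfl
  have h2 : constantCoeff (Polynomial.aeval (ss m) (p m k)) = (p m k).eval 1 := by
    have : constantCoeff (Polynomial.aeval (ss m) (p m k)) =
        Polynomial.eval₂ (algebraMap ℝ ℝ) (constantCoeff (ss m)) (p m k) := by
      rw [Polynomial.aeval_def, Polynomial.hom_eval₂]
      congr 1
    rw [this, cc_ss]
    simp [Polynomial.eval, Polynomial.eval₂_eq_sum]
  simp only [map_mul, map_pow, map_add, map_neg, map_one, constantCoeff_C, h1, h2, cc_ss, cc_yy]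
    at h
  have h3 : (1 + m) ≠ 0 := by positivity
  have h4 : (1 + m) ^ (k + 2) ≠ 0 := pow_ne_zero _ h3
  apply mul_left_cancel₀ h4
  have h5 : (1 + m) ^ (k + 2) * (bv (-m) (k + 1) * (1 + m) ^ (2 * k + 1)) =
    bv (-m) (k + 1) * (m + 1 ^ 2) ^ (2 * k + 1) * (m + 1) ^ (k + 2) * 1 ^ (k + 1) := by
    rw [one_pow, one_pow, add_comm m 1]; ring
  rw [h5]
  linear_combination h

end Pool.Agent.Q225.TB
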